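import Mathlib
import Pool.Agent.Lib_helper37.SgBuild

/-!
Translation operators on bounded measurable functions and absolutely continuous operators.
-/

open MeasureTheory Filter Topology
open scoped ENNReal NNReal

set_option linter.unusedSectionVars false

namespace Pool.Agent.Helper33.CS

open Pool.Agent.Helper37.Sg

section Basic

variable {H : Type*} [MeasurableSpace H] [Group H] [MeasurableMul₂ H]

lemma rep_ext {T S : Op H} {σ : Measure H} (h : Rep T σ) (h' : Rep S σ) : T = S := by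
  ext1 f
  apply fn_ext
  intro x
  rw [h.eq, h'.eq]

/-- Translation operators `f ↦ f (· s)`. -/
noncomputable def dop (s : H) : Op H := (exists_rep (Measure.dirac s)).choose

lemma rep_dop (s : H) : Rep (dop s) (Measure.dirac s) := (exists_rep (Measure.dirac s)).choose_spec

lemma fn_dop (s : H) (f : Bd H) (x : H) : fn (dop s f) x = fn f (x * s) := by
  rw [(rep_dop s).eq]
  exact integral_dirac' (fun y => fn f (x * y)) s (measurable_fn (ltr x f)).stronglyMeasurable

lemma dop_mul (s t : H) : dop s * dop t = dop (s * t) := by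
  ext1 f
  apply fn_ext
  intro x
  rw [mul_apply_eq_comp, fn_dop, fn_dop, fn_dop, mul_assoc]

lemma dop_one : dop (1 : H) = 1 := by
  ext1 f
  apply fn_ext
  intro x
  rw [fn_dop, mul_one, one_apply_eq_self]

lemma norm_dop_le (s : H) : ‖dop s‖ ≤ 1 := by
  simpa using (rep_dop s).norm_le

/-- The evaluation functional `T ↦ (T f)(x)`. -/
noncomputable def evf (f : Bd H) (x : H) : Op H →L[ℝ] ℝ :=
  LinearMap.mkContinuous
    { toFun := fun T => fn (T f) x
      map_add' := fun T S => by rw [add_apply, fn_add]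
      map_smul' := fun c T => by rw [smul_apply, fn_smul, RingHom.id_apply, smul_eq_mul] }
    ‖f‖ (fun T => by
      refine (abs_fn_le (T f) x).trans ?_
      rw [mul_comm]
      exact ContinuousLinearMap.le_opNorm _ _)

lemma evf_apply (f : Bd H) (x : H) (T : Op H) : evf f x T = fn (T f) x := rfl

end Basic

section Top

variable {H : Type*} [TopologicalSpace H] [Group H] [IsTopologicalGroup H]
  [LocallyCompactSpace H] [SecondCountableTopology H] [T2Space H] [MeasurableSpace H]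
  [BorelSpace H]

/-- Operators given by absolutely continuous probability measures. -/
def PAC (m : Measure H) (S : Op H) : Prop :=
  ∃ α, Rep S α ∧ IsProbabilityMeasure α ∧ α ≪ m

lemma PAC.norm_le {m : Measure H} {S : Op H} (h : PAC m S) : ‖S‖ ≤ 1 := by
  obtain ⟨α, h1, h2, _⟩ := h
  simpa using h1.norm_le

lemma PAC.mul {m : Measure H} [m.IsMulLeftInvariant] {T S : Op H} (hT : PAC m T)
    (hS : PAC m S) : PAC m (T * S) := by
  obtain ⟨σ, h1, h2, h2'⟩ := hT
  obtain ⟨τ, h3, h4, h4'⟩ := hS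
  exact ⟨_, h1.mul h3, inferInstance, Measure.mconv_absolutelyContinuous h4'⟩

lemma PAC.dop_mul {m : Measure H} [m.IsMulLeftInvariant] {S : Op H} (s : H)
    (hS : PAC m S) : PAC m (dop s * S) := by
  obtain ⟨τ, h3, h4, h4'⟩ := hS
  exact ⟨_, (rep_dop s).mul h3, inferInstance, Measure.mconv_absolutelyContinuous h4'⟩

lemma PAC.convex {m : Measure H} {T S : Op H} (hT : PAC m T) (hS : PAC m S) {a b : ℝ}
    (ha : 0 ≤ a) (hb : 0 ≤ b) (hab : a + b = 1) : PAC m (a • T + b • S) := by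
  obtain ⟨σ, h1, h2, h2'⟩ := hT
  obtain ⟨τ, h3, h4, h4'⟩ := hS
  lift a to ℝ≥0 using ha
  lift b to ℝ≥0 using hb
  refine ⟨a • σ + b • τ, (h1.smul a).add (h3.smul b), ⟨?_⟩,
    (h2'.smul_left _).add_left (h4'.smul_left _)⟩
  have hab' : a + b = 1 := by
    apply NNReal.coe_injective
    push_cast
    exact hab
  simp only [Measure.add_apply, Measure.smul_apply, measure_univ]
  rw [← add_smul, hab', one_smul]

lemma PAC.ac {m : Measure H} {S : Op H} (h : PAC m S) : AC m S := by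
  obtain ⟨α, h1, _, h3⟩ := h
  exact ⟨α, h1, h3⟩

/-- Left translation continuity. -/
lemma exists_nhds_left (m : Measure H) [m.IsHaarMeasure] {V : Op H} (hV : AC m V) {ε : ℝ}
    (hε : 0 < ε) : ∃ U ∈ 𝓝 (1 : H), ∀ (T : Op H) (ρ : Measure H), Rep T ρ →
      IsProbabilityMeasure ρ → (∀ᵐ y ∂ρ, y ∈ U) → ‖T * V - V‖ ≤ ε := by
  obtain ⟨α, h1, h2⟩ := hV
  have := h1.fin
  obtain ⟨U, hU, hUe⟩ := exists_nhds_transl m α h2 hε
  exact ⟨U, hU, fun T ρ hT hρ hρU => norm_mul_sub_le hT h1 hρU hε.le hUe⟩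

lemma norm_mul_sub_le_inv {T S T' S' : Op H} {ρ σ : Measure H} (hT : Rep T ρ) (hS : Rep S σ)
    (hT' : Rep T' ρ.inv) (hS' : Rep S' σ.inv) : ‖S * T - S‖ ≤ ‖T' * S' - S'‖ := by
  have := hS.fin
  have := hT.fin
  refine (hS.mul hT).norm_sub_le hS (norm_nonneg _) (fun f => ?_)
  have key : ∀ (τ : Measure H), ∫ y, fn f y ∂τ = ∫ y, fn (invf f) y ∂τ.inv := by
    intro τ
    rw [← integral_inv_fn, Measure.inv_inv]
  rw [key, key σ, inv_mconv]
  exact ((hT'.mul hS').abs_integral_sub_le hS' (invf f)).trans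
    (mul_le_mul_of_nonneg_left (norm_invf_le f) (norm_nonneg _))

lemma inv_ac {m : Measure H} [m.IsHaarMeasure] {α : Measure H} (h : α ≪ m) : α.inv ≪ m := by
  have h1 : α.inv ≪ m.inv := by
    unfold Measure.inv
    exact h.map measurable_inv
  exact h1.trans (inv_absolutelyContinuous m)

lemma inv_dirac (y : H) : (Measure.dirac y).inv = Measure.dirac y⁻¹ := by
  unfold Measure.inv
  rw [Measure.map_dirac' measurable_inv]

/-- Right translation continuity. -/
lemma exists_nhds_right (m : Measure H) [m.IsHaarMeasure] {V : Op H} (hV : AC m V) {ε : ℝ}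
    (hε : 0 < ε) : ∃ U ∈ 𝓝 (1 : H), ∀ y ∈ U, ‖V * dop y - V‖ ≤ ε := by
  obtain ⟨α, h1, h2⟩ := hV
  have := h1.fin
  have hfi : IsFiniteMeasure α.inv := by
    unfold Measure.inv
    infer_instance
  obtain ⟨V', hV'⟩ := exists_rep α.inv
  obtain ⟨U, hU, hUe⟩ := exists_nhds_left m (V := V') ⟨α.inv, hV', inv_ac h2⟩ hε
  refine ⟨U⁻¹, inv_mem_nhds_one H hU, fun y hy => ?_⟩
  have h3 : Rep (dop y⁻¹) (Measure.dirac y).inv := by
    rw [inv_dirac]
    exact rep_dop y⁻¹
  refine (norm_mul_sub_le_inv (rep_dop y) h1 h3 hV').trans ?_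
  refine hUe (dop y⁻¹) (Measure.dirac y⁻¹) (rep_dop y⁻¹) inferInstance ?_
  obtain ⟨U', hU'U, hU'o, hU'1⟩ := mem_nhds_iff.mp hU
  rw [ae_dirac_eq]
  exact hy

lemma continuous_dop_mul (m : Measure H) [m.IsHaarMeasure] {V : Op H} (hV : AC m V) :
    Continuous (fun y : H => dop y * V) := by
  rw [continuous_iff_continuousAt]
  intro y₀
  rw [ContinuousAt, Metric.tendsto_nhds]
  intro ε hε
  obtain ⟨U, hU, hUe⟩ := exists_nhds_left m hV (ε := ε / 2) (by positivity)
  have h1 : Tendsto (fun y : H => y₀⁻¹ * y) (𝓝 y₀) (𝓝 1) := by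
    have : Tendsto (fun y : H => y₀⁻¹ * y) (𝓝 y₀) (𝓝 (y₀⁻¹ * y₀)) :=
      (continuous_const.mul continuous_id).tendsto y₀
    simpa using this
  filter_upwards [h1 hU] with y hy
  have hy' : y₀⁻¹ * y ∈ U := hy
  have e : dop y * V - dop y₀ * V = dop y₀ * (dop (y₀⁻¹ * y) * V - V) := by
    rw [mul_sub, ← mul_assoc, Helper33.CS.dop_mul, mul_inv_cancel_left]
  rw [dist_eq_norm, e]
  have h2 : ‖dop (y₀⁻¹ * y) * V - V‖ ≤ ε / 2 :=
    hUe _ _ (rep_dop _) inferInstance (by rw [ae_dirac_eq]; exact hy')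
  calc ‖dop y₀ * (dop (y₀⁻¹ * y) * V - V)‖ ≤ ‖dop y₀‖ * ‖dop (y₀⁻¹ * y) * V - V‖ :=
        norm_mul_le _ _
    _ ≤ 1 * (ε / 2) := mul_le_mul (norm_dop_le _) h2 (norm_nonneg _) zero_le_one
    _ < ε := by linarith

lemma continuous_mul_dop (m : Measure H) [m.IsHaarMeasure] {V : Op H} (hV : AC m V) :
    Continuous (fun y : H => V * dop y) := by
  rw [continuous_iff_continuousAt]
  intro y₀
  rw [ContinuousAt, Metric.tendsto_nhds]
  intro ε hε
  obtain ⟨U, hU, hUe⟩ := exists_nhds_right m hV (ε := ε / 2) (by positivity)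
  have h1 : Tendsto (fun y : H => y * y₀⁻¹) (𝓝 y₀) (𝓝 1) := by
    have : Tendsto (fun y : H => y * y₀⁻¹) (𝓝 y₀) (𝓝 (y₀ * y₀⁻¹)) :=
      (continuous_id.mul continuous_const).tendsto y₀
    simpa using this
  filter_upwards [h1 hU] with y hy
  have hy' : y * y₀⁻¹ ∈ U := hy
  have e : V * dop y - V * dop y₀ = (V * dop (y * y₀⁻¹) - V) * dop y₀ := by
    rw [sub_mul, mul_assoc, Helper33.CS.dop_mul, inv_mul_cancel_right]
  rw [dist_eq_norm, e]
  have h2 : ‖V * dop (y * y₀⁻¹) - V‖ ≤ ε / 2 := hUe _ hy'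
  calc ‖(V * dop (y * y₀⁻¹) - V) * dop y₀‖ ≤ ‖V * dop (y * y₀⁻¹) - V‖ * ‖dop y₀‖ :=
        norm_mul_le _ _
    _ ≤ (ε / 2) * 1 := mul_le_mul h2 (norm_dop_le _) (norm_nonneg _) (by linarith)
    _ < ε := by linarith

/-- `V * N` is an average of the right translates of `V`. -/
lemma mul_eq_integral (m : Measure H) [m.IsHaarMeasure] {V N : Op H} (hV : AC m V)
    {ν : Measure H} (hN : Rep N ν) : V * N = ∫ y, V * dop y ∂ν := by
  have hfin := hN.fin
  obtain ⟨α, h1, h2⟩ := hV
  have hαfin := h1.fin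
  have hc := continuous_mul_dop m (V := V) ⟨α, h1, h2⟩
  have hint : Integrable (fun y => V * dop y) ν := by
    refine Integrable.of_bound hc.aestronglyMeasurable ‖V‖ (Eventually.of_forall (fun y => ?_))
    refine (norm_mul_le _ _).trans ?_
    exact mul_le_of_le_one_right (norm_nonneg _) (norm_dop_le y)
  ext1 f
  apply fn_ext
  intro x
  have h3 : fn ((∫ y, V * dop y ∂ν) f) x = ∫ y, fn ((V * dop y) f) x ∂ν := by
    rw [← evf_apply, ← ContinuousLinearMap.integral_comp_comm _ hint]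
    rfl
  rw [h3, mul_apply_eq_comp, h1.eq]
  simp only [hN.eq]
  have h4 : ∀ y, fn ((V * dop y) f) x = ∫ z, fn f (x * z * y) ∂α := by
    intro y
    rw [mul_apply_eq_comp, h1.eq]
    simp only [fn_dop]
  simp only [h4]
  refine integral_integral_swap ?_
  have hm : Measurable (Function.uncurry (fun (z y : H) => fn f (x * z * y))) := by
    refine (measurable_fn f).comp ?_
    exact (measurable_const.mul measurable_fst).mul measurable_snd
  exact Integrable.of_bound hm.aestronglyMeasurable ‖f‖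
    (Eventually.of_forall (fun p => by rw [Real.norm_eq_abs]; exact abs_fn_le f _))

end Top

end Pool.Agent.Helper33.CS
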