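import Mathlib
import Pool.Agent.Lib_helper33.CS.Trans

/-!
From an invariant mean on the bounded continuous functions to almost invariant absolutely
continuous probability measures (the Day-Reiter argument).
-/

open MeasureTheory Filter Topology
open scoped ENNReal NNReal BoundedContinuousFunction

set_option linter.unusedSectionVars false

namespace Pool.Agent.Helper33.CS

open Pool.Agent.Helper37.Sg

variable {H : Type*} [TopologicalSpace H] [Group H] [IsTopologicalGroup H]
  [LocallyCompactSpace H] [SecondCountableTopology H] [T2Space H] [MeasurableSpace H]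
  [BorelSpace H]

/-- A left invariant mean on the bounded continuous real functions. -/
structure IsLeftInvMean (M : (H →ᵇ ℝ) →ₗ[ℝ] ℝ) : Prop where
  one : M 1 = 1
  nonneg : ∀ f : H →ᵇ ℝ, (∀ x, 0 ≤ f x) → 0 ≤ M f
  inv : ∀ (s : H) (f g : H →ᵇ ℝ), (∀ x, g x = f (s * x)) → M g = M f

lemma IsLeftInvMean.mono {M : (H →ᵇ ℝ) →ₗ[ℝ] ℝ} (hM : IsLeftInvMean M) {f g : H →ᵇ ℝ}
    (h : ∀ x, f x ≤ g x) : M f ≤ M g := by
  have := hM.nonneg (g - f) (fun x => by
    rw [BoundedContinuousFunction.sub_apply]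
    linarith [h x])
  rw [map_sub] at this
  linarith

lemma IsLeftInvMean.const {M : (H →ᵇ ℝ) →ₗ[ℝ] ℝ} (hM : IsLeftInvMean M) (c : ℝ) :
    M (c • (1 : H →ᵇ ℝ)) = c := by
  rw [map_smul, hM.one, smul_eq_mul, mul_one]

lemma IsLeftInvMean.abs_le' {M : (H →ᵇ ℝ) →ₗ[ℝ] ℝ} (hM : IsLeftInvMean M) {f : H →ᵇ ℝ} {c : ℝ}
    (h : ∀ x, |f x| ≤ c) : |M f| ≤ c := by
  rw [abs_le]
  constructor
  · have h1 := hM.mono (f := (-c) • (1 : H →ᵇ ℝ)) (g := f) (fun x => by
      have := (abs_le.mp (h x)).1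
      simpa using this)
    rwa [hM.const] at h1
  · have h1 := hM.mono (f := f) (g := c • (1 : H →ᵇ ℝ)) (fun x => by
      have := (abs_le.mp (h x)).2
      simpa using this)
    rwa [hM.const] at h1

section Lam

variable (m : Measure H) [m.IsHaarMeasure] {B₀ : Op H} (hB : PAC m B₀) (φ : Op H →L[ℝ] ℝ)

/-- The function `s ↦ φ (V δ_s B₀)`. -/
noncomputable def hf (V : Op H) : H →ᵇ ℝ :=
  BoundedContinuousFunction.ofNormedAddCommGroup (fun s => φ (V * (dop s * B₀)))
    (φ.continuous.comp (continuous_const.mul (continuous_dop_mul m hB.ac)))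
    (‖φ‖ * ‖V‖) (fun s => by
      refine (φ.le_opNorm _).trans ?_
      refine mul_le_mul_of_nonneg_left ?_ (norm_nonneg _)
      refine (norm_mul_le _ _).trans ?_
      refine mul_le_of_le_one_right (norm_nonneg _) ?_
      refine (norm_mul_le _ _).trans ?_
      exact mul_le_one₀ (norm_dop_le s) (norm_nonneg _) hB.norm_le)

lemma hf_apply (V : Op H) (s : H) : hf m hB φ V s = φ (V * (dop s * B₀)) := rfl

variable {M : (H →ᵇ ℝ) →ₗ[ℝ] ℝ} (hM : IsLeftInvMean M)

/-- The functional `V ↦ M (s ↦ φ (V δ_s B₀))`. -/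
noncomputable def lam : Op H →L[ℝ] ℝ :=
  LinearMap.mkContinuous
    { toFun := fun V => M (hf m hB φ V)
      map_add' := fun V W => by
        rw [← map_add]
        congr 1
        ext s
        rw [BoundedContinuousFunction.add_apply, hf_apply, hf_apply, hf_apply, add_mul, map_add]
      map_smul' := fun c V => by
        rw [RingHom.id_apply, ← map_smul]
        congr 1
        ext s
        rw [BoundedContinuousFunction.smul_apply, hf_apply, hf_apply, smul_mul_assoc, map_smul] }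
    ‖φ‖ (fun V => by
      refine hM.abs_le' (fun s => ?_)
      rw [hf_apply]
      refine (φ.le_opNorm _).trans ?_
      refine mul_le_mul_of_nonneg_left ?_ (norm_nonneg _)
      refine (norm_mul_le _ _).trans ?_
      refine mul_le_of_le_one_right (norm_nonneg _) ?_
      refine (norm_mul_le _ _).trans ?_
      exact mul_le_one₀ (norm_dop_le s) (norm_nonneg _) hB.norm_le)

lemma lam_apply (V : Op H) : lam m hB φ hM V = M (hf m hB φ V) := rfl

lemma lam_mul_dop (V : Op H) (y : H) : lam m hB φ hM (V * dop y) = lam m hB φ hM V := by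
  rw [lam_apply, lam_apply]
  refine hM.inv y _ _ (fun s => ?_)
  rw [hf_apply, hf_apply, mul_assoc, ← mul_assoc (dop y), dop_mul]

lemma lam_mul {V N : Op H} (hV : PAC m V) (hN : PAC m N) :
    lam m hB φ hM (V * N) = lam m hB φ hM V := by
  obtain ⟨ν, h1, h2, h3⟩ := hN
  have hc := continuous_mul_dop m hV.ac
  have hint : Integrable (fun y => V * dop y) ν := by
    refine Integrable.of_bound hc.aestronglyMeasurable ‖V‖ (Eventually.of_forall (fun y => ?_))
    refine (norm_mul_le _ _).trans ?_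
    exact mul_le_of_le_one_right (norm_nonneg _) (norm_dop_le y)
  rw [mul_eq_integral m hV.ac h1, ← ContinuousLinearMap.integral_comp_comm _ hint]
  simp only [lam_mul_dop]
  simp

lemma lam_eq {V W : Op H} (hV : PAC m V) (hW : PAC m W) :
    lam m hB φ hM V = lam m hB φ hM W := by
  refine eq_of_forall_dist_le (fun ε hε => ?_)
  have hC0 : 0 ≤ ‖lam m hB φ hM‖ := norm_nonneg (lam m hB φ hM)
  set C := ‖lam m hB φ hM‖ with hC
  set δ := ε / (2 * (C + 1)) with hδ
  have hδ0 : 0 < δ := by positivity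
  obtain ⟨U, hU, hUe⟩ := exists_nhds_left m hV.ac hδ0
  obtain ⟨U', hU', hUe'⟩ := exists_nhds_left m hW.ac hδ0
  obtain ⟨ρ, hρp, hρac, hρinv, hρU⟩ := exists_small m (inter_mem hU hU')
  obtain ⟨T, hT⟩ := exists_rep ρ
  have hTP : PAC m T := ⟨ρ, hT, hρp, hρac⟩
  have h1 := hUe T ρ hT hρp (hρU.mono (fun y hy => hy.1))
  have h2 := hUe' T ρ hT hρp (hρU.mono (fun y hy => hy.2))
  have h3 := lam_mul m hB φ hM hTP hV
  have h4 := lam_mul m hB φ hM hTP hW
  have h5 : |lam m hB φ hM (T * V) - lam m hB φ hM V| ≤ C * δ := by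
    rw [← map_sub, ← Real.norm_eq_abs]
    exact ((lam m hB φ hM).le_opNorm _).trans (mul_le_mul_of_nonneg_left h1 hC0)
  have h6 : |lam m hB φ hM (T * W) - lam m hB φ hM W| ≤ C * δ := by
    rw [← map_sub, ← Real.norm_eq_abs]
    exact ((lam m hB φ hM).le_opNorm _).trans (mul_le_mul_of_nonneg_left h2 hC0)
  have h7 : C * δ ≤ ε / 2 := by
    rw [hδ]
    rw [mul_div_assoc', div_le_div_iff₀ (by positivity) (by norm_num)]
    nlinarith
  rw [h3] at h5
  rw [h4] at h6
  rw [Real.dist_eq]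
  rw [abs_le] at h5 h6 ⊢
  constructor <;> linarith [h5.1, h5.2, h6.1, h6.2]

end Lam

/-- The Day-Reiter argument. -/
theorem exists_almost_inv (m : Measure H) [m.IsHaarMeasure] {M : (H →ᵇ ℝ) →ₗ[ℝ] ℝ}
    (hM : IsLeftInvMean M) {ι : Type*} [Finite ι] (W : ι → Op H) (hW : ∀ i, PAC m (W i))
    {ε : ℝ} (hε : 0 < ε) : ∃ B : Op H, PAC m B ∧ ∀ i, ‖(W i - 1) * B‖ ≤ ε := by
  classical
  have := Fintype.ofFinite ι
  by_contra hcon
  push Not at hcon
  obtain ⟨ρ, hρp, hρac, -, -⟩ := exists_small m (univ_mem : (Set.univ : Set H) ∈ 𝓝 (1 : H))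
  obtain ⟨B₀, hB₀⟩ := exists_rep ρ
  have hB : PAC m B₀ := ⟨ρ, hB₀, hρp, hρac⟩
  let C : Set (ι → Op H) := {x | ∃ B, PAC m B ∧ x = fun i => (W i - 1) * B}
  have hCconv : Convex ℝ C := by
    rintro x ⟨B, hB1, rfl⟩ y ⟨B', hB1', rfl⟩ a b ha hb hab
    refine ⟨a • B + b • B', hB1.convex hB1' ha hb hab, ?_⟩
    funext i
    simp only [Pi.add_apply, Pi.smul_apply]
    rw [mul_add, mul_smul_comm, mul_smul_comm]
  have hdisj : Disjoint (Metric.ball (0 : ι → Op H) ε) C := by
    rw [Set.disjoint_left]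
    rintro x hx ⟨B, hB1, rfl⟩
    obtain ⟨i, hi⟩ := hcon B hB1
    rw [mem_ball_zero_iff] at hx
    have := norm_le_pi_norm (fun i => (W i - 1) * B) i
    linarith
  obtain ⟨F, u, hF1, hF2⟩ := geometric_hahn_banach_open (convex_ball _ _) Metric.isOpen_ball
    hCconv hdisj
  have hu : 0 < u := by
    have := hF1 0 (by simpa using hε)
    simpa using this
  let φ : ι → (Op H →L[ℝ] ℝ) := fun i => F.comp (ContinuousLinearMap.single ℝ (fun _ => Op H) i)
  have hFφ : ∀ x : ι → Op H, F x = ∑ i, φ i (x i) := by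
    intro x
    have hx : x = ∑ i, Pi.single i (x i) := by
      funext j
      simp [Finset.sum_apply, Pi.single_apply]
    conv_lhs => rw [hx]
    rw [map_sum]
    rfl
  let g : H →ᵇ ℝ := ∑ i, (hf m hB (φ i) (W i * B₀) - hf m hB (φ i) B₀)
  have hg : ∀ s, u ≤ g s := by
    intro s
    have h1 := hF2 (fun i => (W i - 1) * (B₀ * (dop s * B₀)))
      ⟨_, hB.mul (hB.dop_mul s), rfl⟩
    rw [hFφ] at h1
    refine h1.trans (le_of_eq ?_)
    simp only [g]
    rw [BoundedContinuousFunction.coe_sum, Finset.sum_apply]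
    refine Finset.sum_congr rfl (fun i _ => ?_)
    rw [BoundedContinuousFunction.sub_apply, hf_apply, hf_apply, ← map_sub, sub_mul, one_mul,
      mul_assoc]
  have h2 : u ≤ M g := by
    have := hM.mono (f := u • (1 : H →ᵇ ℝ)) (g := g) (fun s => by simpa using hg s)
    rwa [hM.const] at this
  have h3 : M g = 0 := by
    simp only [g]
    rw [map_sum]
    refine Finset.sum_eq_zero (fun i _ => ?_)
    rw [map_sub, sub_eq_zero]
    have := lam_eq m hB (φ i) hM ((hW i).mul hB) hB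
    rwa [lam_apply, lam_apply] at this
  linarith

/-- Symmetric version. -/
theorem exists_almost_inv_symm (m : Measure H) [m.IsHaarMeasure] {M : (H →ᵇ ℝ) →ₗ[ℝ] ℝ}
    (hM : IsLeftInvMean M) {ι : Type*} [Finite ι] (W : ι → Op H) (hW : ∀ i, PAC m (W i))
    {ε : ℝ} (hε : 0 < ε) : ∃ B : Op H, GoodP m B ∧ ∀ i, ‖(W i - 1) * B‖ ≤ ε := by
  obtain ⟨B, ⟨β, h1, h2, h3⟩, hBe⟩ := exists_almost_inv m hM W hW hε
  have hpi : IsProbabilityMeasure β.inv := by
    unfold Measure.inv
    exact Measure.isProbabilityMeasure_map measurable_inv.aemeasurable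
  obtain ⟨B', hB'⟩ := exists_rep β.inv
  refine ⟨B * B', ⟨_, h1.mul hB', inferInstance,
    Measure.mconv_absolutelyContinuous (inv_ac h3), ?_⟩, fun i => ?_⟩
  · rw [inv_mconv, Measure.inv_inv]
  · rw [← mul_assoc]
    refine (norm_mul_le _ _).trans ?_
    refine (mul_le_of_le_one_right (norm_nonneg _) ?_).trans (hBe i)
    simpa using hB'.norm_le

end Pool.Agent.Helper33.CS
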