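import Mathlib
import Pool.Agent.Lib_helper37.SgExp

/-!
Perturbation estimates for exponentials in a real Banach algebra, and the convergence of the
semigroups generated by partial sums `sum (a k - 1) + c k (b k - 1)`.
-/

open NormedSpace Filter Topology
open scoped Nat

set_option linter.unusedSectionVars false

namespace Pool.Agent.Helper33.CS

open Pool.Agent.Helper37.Sg

variable {E : Type*} [NormedRing E] [NormedAlgebra ℝ E] [CompleteSpace E]

lemma duhamel [NormOneClass E] (W X Y : E) (hX : ∀ s : ℝ, 0 ≤ s → ‖exp (s • X)‖ ≤ 1)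
    {t δ : ℝ} (ht : 0 ≤ t)
    (h : ∀ s : ℝ, 0 ≤ s → s ≤ t → ‖W * exp (s • Y) * (Y - X)‖ ≤ δ) :
    ‖W * exp (t • Y) - W * exp (t • X)‖ ≤ δ * t := by
  have hd : ∀ s : ℝ, HasDerivAt (fun u : ℝ => W * (exp (u • Y) * exp ((t - u) • X)))
      (W * exp (s • Y) * (Y - X) * exp ((t - s) • X)) s := by
    intro s
    have h1 : HasDerivAt (fun u : ℝ => exp (u • Y)) (exp (s • Y) * Y) s :=
      hasDerivAt_exp_smul_const (𝕂 := ℝ) (𝔸 := E) Y s
    have h2 : HasDerivAt (fun u : ℝ => exp (u • X)) (X * exp ((t - s) • X)) (t - s) :=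
      hasDerivAt_exp_smul_const' (𝕂 := ℝ) (𝔸 := E) X (t - s)
    have h3 : HasDerivAt (fun u : ℝ => t - u) (-1) s := by
      simpa using (hasDerivAt_id s).const_sub t
    have h4 : HasDerivAt (fun u : ℝ => exp ((t - u) • X)) ((-1 : ℝ) • (X * exp ((t - s) • X))) s :=
      h2.scomp s h3
    have h5 := (h1.mul h4).const_mul W
    refine h5.congr_deriv ?_
    rw [neg_one_smul]
    noncomm_ring
  have h2 := norm_image_sub_le_of_norm_deriv_le_segment' (a := 0) (b := t) (C := δ)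
    (f := fun u : ℝ => W * (exp (u • Y) * exp ((t - u) • X)))
    (f' := fun s => W * exp (s • Y) * (Y - X) * exp ((t - s) • X))
    (fun x _ => (hd x).hasDerivWithinAt) (fun x hx => by
      have h6 := h x hx.1 hx.2.le
      have h7 := hX (t - x) (by linarith [hx.2])
      calc ‖W * exp (x • Y) * (Y - X) * exp ((t - x) • X)‖
          ≤ ‖W * exp (x • Y) * (Y - X)‖ * ‖exp ((t - x) • X)‖ := norm_mul_le _ _
        _ ≤ δ * 1 := by
            refine mul_le_mul h6 h7 (norm_nonneg _) ((norm_nonneg _).trans h6)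
        _ = δ := mul_one _) t ⟨ht, le_refl t⟩
  simpa [exp_zero] using h2

lemma norm_exp_sub_exp_le [NormOneClass E] {X Y : E} (hX : ∀ s : ℝ, 0 ≤ s → ‖exp (s • X)‖ ≤ 1)
    (hY : ∀ s : ℝ, 0 ≤ s → ‖exp (s • Y)‖ ≤ 1) {t : ℝ} (ht : 0 ≤ t) :
    ‖exp (t • Y) - exp (t • X)‖ ≤ ‖Y - X‖ * t := by
  have := duhamel 1 X Y hX ht (δ := ‖Y - X‖) (fun s hs _ => by
    rw [one_mul]
    refine (norm_mul_le _ _).trans ?_
    exact mul_le_of_le_one_left (norm_nonneg _) (hY s hs))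
  simpa using this

/-- A contraction semigroup moves `b` slowly. -/
lemma norm_exp_mul_sub_le [NormOneClass E] {Y : E} (hY : ∀ s : ℝ, 0 ≤ s → ‖exp (s • Y)‖ ≤ 1)
    (b : E) {t : ℝ} (ht : 0 ≤ t) : ‖exp (t • Y) * b - b‖ ≤ ‖Y * b‖ * t := by
  have hd : ∀ s : ℝ, HasDerivAt (fun u : ℝ => exp (u • Y) * b) (exp (s • Y) * Y * b) s := by
    intro s
    exact (hasDerivAt_exp_smul_const (𝕂 := ℝ) (𝔸 := E) Y s).mul_const b
  have h2 := norm_image_sub_le_of_norm_deriv_le_segment' (a := 0) (b := t) (C := ‖Y * b‖)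
    (f := fun u : ℝ => exp (u • Y) * b)
    (f' := fun s => exp (s • Y) * Y * b)
    (fun x _ => (hd x).hasDerivWithinAt) (fun x hx => by
      rw [mul_assoc]
      refine (norm_mul_le _ _).trans ?_
      exact mul_le_of_le_one_left (norm_nonneg _) (hY x hx.1)) t ⟨ht, le_refl t⟩
  simpa [exp_zero] using h2

/-- Adding jumps `c (b - 1)` with `b` almost absorbed by `Y` and by `V`. -/
lemma norm_mul_exp_jump [NormOneClass E] {V Y b : E} {c t δ₁ δ₂ : ℝ} (hc : 0 ≤ c) (ht : 0 ≤ t)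
    (hY : ∀ s : ℝ, 0 ≤ s → ‖exp (s • Y)‖ ≤ 1)
    (hX : ∀ s : ℝ, 0 ≤ s → ‖exp (s • (Y + c • (b - 1)))‖ ≤ 1)
    (hV : ‖V‖ ≤ 2) (h1 : ‖V * b‖ ≤ δ₁) (h2 : ‖Y * b‖ ≤ δ₂) :
    ‖V * exp (t • (Y + c • (b - 1)))‖
      ≤ 2 * Real.exp (-(c * t)) + (c * t) * (δ₁ + 2 * (δ₂ * t)) := by
  have hδ₂ : 0 ≤ δ₂ := (norm_nonneg _).trans h2
  have he : ∀ s : ℝ, exp (s • (Y - c • (1 : E))) = Real.exp (-(c * s)) • exp (s • Y) := by
    intro s
    rw [smul_sub, smul_smul, exp_sub_smul_one, mul_comm s c]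
  have h3 := duhamel V (Y + c • (b - 1)) (Y - c • (1 : E)) hX ht
    (δ := c * (δ₁ + 2 * (δ₂ * t))) (fun s hs hst => by
      rw [he]
      have e : Y - c • (1 : E) - (Y + c • (b - 1)) = -(c • b) := by
        rw [smul_sub]; abel
      rw [e, mul_neg, norm_neg, mul_smul_comm, mul_smul_comm, smul_mul_assoc, norm_smul, norm_smul,
        Real.norm_eq_abs, Real.norm_eq_abs, abs_of_pos (Real.exp_pos _), abs_of_nonneg hc]
      have h4 : Real.exp (-(c * s)) ≤ 1 := Real.exp_le_one_iff.mpr (by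
        have := mul_nonneg hc hs
        linarith)
      have h5 : ‖V * exp (s • Y) * b‖ ≤ δ₁ + 2 * (δ₂ * t) := by
        have e2 : V * exp (s • Y) * b = V * b + V * (exp (s • Y) * b - b) := by
          rw [mul_sub, mul_assoc]; abel
        rw [e2]
        refine (norm_add_le _ _).trans (add_le_add h1 ?_)
        refine (norm_mul_le _ _).trans ?_
        have h6 := norm_exp_mul_sub_le hY b hs
        have h7 : ‖Y * b‖ * s ≤ δ₂ * t := mul_le_mul h2 hst hs hδ₂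
        exact mul_le_mul hV (h6.trans h7) (norm_nonneg _) (by norm_num)
      calc c * (Real.exp (-(c * s)) * ‖V * exp (s • Y) * b‖)
          ≤ c * (1 * (δ₁ + 2 * (δ₂ * t))) := by
            refine mul_le_mul_of_nonneg_left ?_ hc
            exact mul_le_mul h4 h5 (norm_nonneg _) zero_le_one
        _ = c * (δ₁ + 2 * (δ₂ * t)) := by rw [one_mul])
  have h8 : ‖V * exp (t • (Y - c • (1 : E)))‖ ≤ 2 * Real.exp (-(c * t)) := by
    rw [he, mul_smul_comm, norm_smul, Real.norm_eq_abs, abs_of_pos (Real.exp_pos _), mul_comm]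
    refine mul_le_mul_of_nonneg_right ?_ (Real.exp_pos _).le
    refine (norm_mul_le _ _).trans ?_
    calc ‖V‖ * ‖exp (t • Y)‖ ≤ 2 * 1 := mul_le_mul hV (hY t ht) (norm_nonneg _) (by norm_num)
      _ = 2 := by norm_num
  have e3 : V * exp (t • (Y + c • (b - 1))) = V * exp (t • (Y - c • (1 : E)))
      - (V * exp (t • (Y - c • (1 : E))) - V * exp (t • (Y + c • (b - 1)))) := by abel
  rw [e3]
  refine (norm_sub_le _ _).trans (add_le_add h8 ?_)
  refine h3.trans (le_of_eq ?_)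
  ring

section Seq

variable [NormOneClass E] (a b : ℕ → E) (c : ℕ → ℝ)

/-- Partial sums. -/
noncomputable def tot (K : ℕ) : E := ∑ k ∈ Finset.range K, (a k + c k • b k)

/-- Total masses. -/
noncomputable def mass (K : ℕ) : ℝ := ∑ k ∈ Finset.range K, (1 + c k)

/-- Generators. -/
noncomputable def gn (K : ℕ) : E := tot a b c K - mass c K • (1 : E)

lemma tot_succ (K : ℕ) : tot a b c (K + 1) = tot a b c K + (a K + c K • b K) := by
  simp [tot, Finset.sum_range_succ]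

lemma mass_succ (K : ℕ) : mass c (K + 1) = mass c K + (1 + c K) := by
  simp [mass, Finset.sum_range_succ]

/-- The generator before the jumps `b K` are added. -/
noncomputable def hn (K : ℕ) : E := gn a b c K + (a K - 1)

lemma gn_succ (K : ℕ) : gn a b c (K + 1) = hn a b c K + c K • (b K - 1) := by
  rw [hn, gn, gn, tot_succ, mass_succ]
  module

variable {a b c}

lemma mass_nonneg (hc : ∀ k, 0 ≤ c k) (K : ℕ) : 0 ≤ mass c K :=
  Finset.sum_nonneg (fun k _ => by linarith [hc k])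

lemma le_mass (hc : ∀ k, 0 ≤ c k) (K : ℕ) : (K : ℝ) ≤ mass c K := by
  unfold mass
  calc (K : ℝ) = ∑ _k ∈ Finset.range K, (1 : ℝ) := by simp
    _ ≤ _ := Finset.sum_le_sum (fun k _ => by linarith [hc k])

lemma norm_tot_le (ha : ∀ k, ‖a k‖ ≤ 1) (hb : ∀ k, ‖b k‖ ≤ 1) (hc : ∀ k, 0 ≤ c k) (K : ℕ) :
    ‖tot a b c K‖ ≤ mass c K := by
  unfold tot mass
  refine (norm_sum_le _ _).trans (Finset.sum_le_sum (fun k _ => ?_))
  refine (norm_add_le _ _).trans (add_le_add (ha k) ?_)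
  rw [norm_smul, Real.norm_eq_abs, abs_of_nonneg (hc k)]
  exact mul_le_of_le_one_right (hc k) (hb k)

lemma norm_exp_of_le {P : E} {M : ℝ} (hP : ‖P‖ ≤ M) {t : ℝ} (ht : 0 ≤ t) :
    ‖exp (t • (P - M • (1 : E)))‖ ≤ 1 := by
  rw [smul_sub, smul_smul]
  refine norm_exp_sub_le _ _ ?_
  rw [norm_smul, Real.norm_eq_abs, abs_of_nonneg ht]
  exact mul_le_mul_of_nonneg_left hP ht

lemma norm_exp_gn_le (ha : ∀ k, ‖a k‖ ≤ 1) (hb : ∀ k, ‖b k‖ ≤ 1) (hc : ∀ k, 0 ≤ c k)
    {t : ℝ} (ht : 0 ≤ t) (K : ℕ) : ‖exp (t • gn a b c K)‖ ≤ 1 :=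
  norm_exp_of_le (norm_tot_le ha hb hc K) ht

lemma norm_exp_hn_le (ha : ∀ k, ‖a k‖ ≤ 1) (hb : ∀ k, ‖b k‖ ≤ 1) (hc : ∀ k, 0 ≤ c k)
    {t : ℝ} (ht : 0 ≤ t) (K : ℕ) : ‖exp (t • hn a b c K)‖ ≤ 1 := by
  have e : hn a b c K = (tot a b c K + a K) - (mass c K + 1) • (1 : E) := by
    rw [hn, gn]
    module
  rw [e]
  exact norm_exp_of_le ((norm_add_le _ _).trans (add_le_add (norm_tot_le ha hb hc K) (ha K))) ht

/-- Increment for the almost absorbed jumps `a K`. -/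
lemma norm_exp_hn_sub (ha : ∀ k, ‖a k‖ ≤ 1) (hb : ∀ k, ‖b k‖ ≤ 1) (hc : ∀ k, 0 ≤ c k)
    {η : ℕ → ℝ}
    (h1 : ∀ K, ‖tot a b c K * (a K - 1)‖ ≤ η K) (h2 : ∀ K, ‖(a K - 1) * tot a b c K‖ ≤ η K)
    {t : ℝ} (ht : 0 ≤ t) (K : ℕ) :
    ‖exp (t • hn a b c K) - exp (t • gn a b c K)‖
      ≤ 2 * Real.exp (-(t * mass c K))
        + (t ^ 2 * η K) * Real.exp (4 * (1 + t * (mass c K + 2))) := by
  have hη : 0 ≤ η K := (norm_nonneg _).trans (h1 K)
  have hM0 := mass_nonneg hc K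
  set A := t • tot a b c K with hAdef
  set C := t • (a K - 1) with hCdef
  have e1 : t • hn a b c K = (A + C) - (t * mass c K) • (1 : E) := by
    rw [hn, gn, hAdef, hCdef]
    module
  have e2 : t • gn a b c K = A - (t * mass c K) • (1 : E) := by
    rw [gn, hAdef]
    module
  rw [e1, e2, exp_sub_smul_one, exp_sub_smul_one, ← smul_sub, norm_smul, Real.norm_eq_abs,
    abs_of_pos (Real.exp_pos _)]
  have hAn : ‖A‖ ≤ 1 + t * (mass c K + 2) := by
    rw [hAdef, norm_smul, Real.norm_eq_abs, abs_of_nonneg ht]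
    have := mul_le_mul_of_nonneg_left (norm_tot_le ha hb hc K) ht
    nlinarith
  have hCn : ‖C‖ ≤ 1 + t * (mass c K + 2) := by
    rw [hCdef, norm_smul, Real.norm_eq_abs, abs_of_nonneg ht]
    have h3 : ‖a K - 1‖ ≤ 2 := (norm_sub_le _ _).trans (by rw [norm_one]; linarith [ha K])
    have := mul_le_mul_of_nonneg_left h3 ht
    nlinarith [mul_nonneg ht hM0]
  have hM : (1 : ℝ) ≤ 1 + t * (mass c K + 2) := by
    nlinarith [mul_nonneg ht hM0]
  have hAC : ‖A * C‖ ≤ t ^ 2 * η K := by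
    rw [hAdef, hCdef, smul_mul_smul_comm, norm_smul, Real.norm_eq_abs,
      abs_of_nonneg (mul_nonneg ht ht), sq]
    exact mul_le_mul_of_nonneg_left (h1 K) (mul_nonneg ht ht)
  have hCA : ‖C * A‖ ≤ t ^ 2 * η K := by
    rw [hAdef, hCdef, smul_mul_smul_comm, norm_smul, Real.norm_eq_abs,
      abs_of_nonneg (mul_nonneg ht ht), sq]
    exact mul_le_mul_of_nonneg_left (h2 K) (mul_nonneg ht ht)
  have hmix := norm_exp_mixed hM (by positivity) hAn hCn hAC hCA
  have hCe : ‖exp C‖ ≤ 1 := by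
    have : C = t • a K - t • (1 : E) := by rw [hCdef, smul_sub]
    rw [this]
    refine norm_exp_sub_le _ _ ?_
    rw [norm_smul, Real.norm_eq_abs, abs_of_nonneg ht]
    have := mul_le_mul_of_nonneg_left (ha K) ht
    linarith
  have hdec : exp (A + C) - exp A = (exp (A + C) - exp A - exp C + 1) + (exp C - 1) := by
    abel
  have hb : ‖exp (A + C) - exp A‖
      ≤ (t ^ 2 * η K) * Real.exp (4 * (1 + t * (mass c K + 2))) + 2 := by
    rw [hdec]
    refine (norm_add_le _ _).trans (add_le_add hmix ?_)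
    refine (norm_sub_le _ _).trans ?_
    rw [norm_one]
    linarith
  have hexp1 : Real.exp (-(t * mass c K)) ≤ 1 := by
    apply Real.exp_le_one_iff.mpr
    have : 0 ≤ t * mass c K := mul_nonneg ht hM0
    linarith
  have hpos : 0 ≤ (t ^ 2 * η K) * Real.exp (4 * (1 + t * (mass c K + 2))) := by positivity
  calc Real.exp (-(t * mass c K)) * ‖exp (A + C) - exp A‖
      ≤ Real.exp (-(t * mass c K)) * ((t ^ 2 * η K) * Real.exp (4 * (1 + t * (mass c K + 2))) + 2) :=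
        mul_le_mul_of_nonneg_left hb (Real.exp_pos _).le
    _ = 2 * Real.exp (-(t * mass c K)) + Real.exp (-(t * mass c K))
          * ((t ^ 2 * η K) * Real.exp (4 * (1 + t * (mass c K + 2)))) := by ring
    _ ≤ 2 * Real.exp (-(t * mass c K))
          + 1 * ((t ^ 2 * η K) * Real.exp (4 * (1 + t * (mass c K + 2)))) := by
        gcongr
    _ = _ := by ring

/-- Increment for the rare jumps `b K`. -/
lemma norm_exp_gn_succ_sub_hn (ha : ∀ k, ‖a k‖ ≤ 1) (hb : ∀ k, ‖b k‖ ≤ 1) (hc : ∀ k, 0 ≤ c k)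
    {t : ℝ} (ht : 0 ≤ t) (K : ℕ) :
    ‖exp (t • gn a b c (K + 1)) - exp (t • hn a b c K)‖ ≤ 2 * c K * t := by
  refine (norm_exp_sub_exp_le (fun s hs => norm_exp_hn_le ha hb hc hs K)
    (fun s hs => norm_exp_gn_le ha hb hc hs (K + 1)) ht).trans ?_
  refine mul_le_mul_of_nonneg_right ?_ ht
  rw [gn_succ, add_sub_cancel_left, norm_smul, Real.norm_eq_abs, abs_of_nonneg (hc K)]
  have h3 : ‖b K - 1‖ ≤ 2 := (norm_sub_le _ _).trans (by rw [norm_one]; linarith [hb K])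
  calc c K * ‖b K - 1‖ ≤ c K * 2 := mul_le_mul_of_nonneg_left h3 (hc K)
    _ = 2 * c K := by ring

end Seq

end Pool.Agent.Helper33.CS
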