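import Mathlib
import Pool.Agent.Lib_helper33.CS.Duh

/-!
Convergence of the semigroups generated by `sum (a k - 1) + c k (b k - 1)` with the explicit
weights `c k = 2^(-k^2)`, and their behaviour at the times `s k = k 2^(k^2)`.
-/

open NormedSpace Filter Topology
open scoped Nat

set_option linter.unusedSectionVars false

namespace Pool.Agent.Helper33.CS

open Pool.Agent.Helper37.Sg

/-- The rates of the rare jumps. -/
noncomputable def cc (k : ℕ) : ℝ := (1 / 2 : ℝ) ^ (k ^ 2)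

/-- The time scales. -/
noncomputable def sc (k : ℕ) : ℝ := k * 2 ^ (k ^ 2)

/-- The tolerances. -/
noncomputable def ec (k : ℕ) : ℝ :=
  (1 / 2 : ℝ) ^ k * ((1 + sc k) ^ 2)⁻¹ * (Real.exp (4 * (1 + sc k * (k + 5))))⁻¹

lemma cc_nonneg (k : ℕ) : 0 ≤ cc k := by unfold cc; positivity

lemma sc_nonneg (k : ℕ) : 0 ≤ sc k := by unfold sc; positivity

lemma ec_pos (k : ℕ) : 0 < ec k := by
  have := sc_nonneg k
  unfold ec
  positivity

lemma cc_le (k : ℕ) : cc k ≤ (1 / 2 : ℝ) ^ k := by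
  unfold cc
  refine pow_le_pow_of_le_one (by norm_num) (by norm_num) ?_
  nlinarith [Nat.zero_le k, sq_nonneg k, Nat.le_mul_self k]

lemma cc_mul_sc (k : ℕ) : cc k * sc k = k := by
  unfold cc sc
  rw [mul_left_comm, ← mul_pow]
  norm_num

lemma le_sc (k : ℕ) : (k : ℝ) ≤ sc k := by
  unfold sc
  have h : (1 : ℝ) ≤ 2 ^ (k ^ 2) := one_le_pow₀ (by norm_num)
  have hk : (0 : ℝ) ≤ k := Nat.cast_nonneg k
  nlinarith

lemma mul_half_pow_le_one (k : ℕ) : (k : ℝ) * (1 / 2 : ℝ) ^ k ≤ 1 := by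
  have h : (k : ℝ) ≤ 2 ^ k := by exact_mod_cast (Nat.lt_two_pow_self (n := k)).le
  have h2 : (2 : ℝ) ^ k * (1 / 2 : ℝ) ^ k = 1 := by
    rw [← mul_pow]; norm_num
  calc (k : ℝ) * (1 / 2 : ℝ) ^ k ≤ 2 ^ k * (1 / 2 : ℝ) ^ k :=
        mul_le_mul_of_nonneg_right h (by positivity)
    _ = 1 := h2

lemma cc_mul_sc_lt {j k : ℕ} (h : k < j) : cc j * sc k ≤ (1 / 2 : ℝ) ^ j := by
  have h1 : k ^ 2 + j + k ≤ j ^ 2 := by
    obtain ⟨d, rfl⟩ := Nat.exists_eq_add_of_lt h
    nlinarith [Nat.zero_le d, Nat.zero_le k, Nat.zero_le (d * k), Nat.zero_le (d * d)]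
  have h2 : cc j ≤ (1 / 2 : ℝ) ^ (k ^ 2 + j + k) :=
    pow_le_pow_of_le_one (by norm_num) (by norm_num) h1
  calc cc j * sc k ≤ (1 / 2 : ℝ) ^ (k ^ 2 + j + k) * sc k :=
        mul_le_mul_of_nonneg_right h2 (sc_nonneg k)
    _ = ((1 / 2 : ℝ) ^ (k ^ 2) * 2 ^ (k ^ 2)) * (k * (1 / 2 : ℝ) ^ k) * (1 / 2 : ℝ) ^ j := by
        rw [pow_add, pow_add, sc]; ring
    _ = 1 * (k * (1 / 2 : ℝ) ^ k) * (1 / 2 : ℝ) ^ j := by
        rw [← mul_pow]; norm_num
    _ ≤ 1 * 1 * (1 / 2 : ℝ) ^ j := by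
        refine mul_le_mul_of_nonneg_right ?_ (by positivity)
        exact mul_le_mul_of_nonneg_left (mul_half_pow_le_one k) zero_le_one
    _ = (1 / 2 : ℝ) ^ j := by ring

lemma mass_le (K : ℕ) : mass cc K ≤ K + 2 := by
  unfold mass
  rw [Finset.sum_add_distrib]
  refine add_le_add (by simp) ?_
  calc ∑ k ∈ Finset.range K, cc k ≤ ∑ k ∈ Finset.range K, (1 / 2 : ℝ) ^ k :=
        Finset.sum_le_sum (fun k _ => cc_le k)
    _ ≤ ∑' k : ℕ, (1 / 2 : ℝ) ^ k :=
        summable_geometric_two.sum_le_tsum _ (fun _ _ => by positivity)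
    _ = 2 := tsum_geometric_two

lemma ec_bound {K : ℕ} {t : ℝ} (ht : 0 ≤ t) (hts : t ≤ sc K) :
    (t ^ 2 * ec K) * Real.exp (4 * (1 + t * (mass cc K + 2))) ≤ (1 / 2 : ℝ) ^ K := by
  have hs := sc_nonneg K
  have h1 : t ^ 2 ≤ (1 + sc K) ^ 2 := by nlinarith
  have hm := mass_le K
  have hm0 := mass_nonneg cc_nonneg K
  have h2 : Real.exp (4 * (1 + t * (mass cc K + 2))) ≤ Real.exp (4 * (1 + sc K * (K + 5))) := by
    apply Real.exp_le_exp.mpr
    have : t * (mass cc K + 2) ≤ sc K * (K + 5) :=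
      mul_le_mul hts (by linarith) (by linarith) hs
    linarith
  have hpos : (0 : ℝ) < (1 + sc K) ^ 2 := by positivity
  have hexp := Real.exp_pos (4 * (1 + sc K * (K + 5)))
  calc (t ^ 2 * ec K) * Real.exp (4 * (1 + t * (mass cc K + 2)))
      ≤ ((1 + sc K) ^ 2 * ec K) * Real.exp (4 * (1 + sc K * (K + 5))) := by
        refine mul_le_mul (mul_le_mul_of_nonneg_right h1 (ec_pos K).le) h2 (Real.exp_pos _).le ?_
        exact mul_nonneg hpos.le (ec_pos K).le
    _ = (1 / 2 : ℝ) ^ K := by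
        unfold ec
        field_simp

section Main

variable {E : Type*} [NormedRing E] [NormedAlgebra ℝ E] [CompleteSpace E] [NormOneClass E]
  {a b : ℕ → E}

/-- The assumptions on the sequences. -/
structure Hyp (a b : ℕ → E) : Prop where
  ha : ∀ k, ‖a k‖ ≤ 1
  hb : ∀ k, ‖b k‖ ≤ 1
  h1 : ∀ k, ‖tot a b cc k * (a k - 1)‖ ≤ ec k
  h2 : ∀ k, ‖(a k - 1) * tot a b cc k‖ ≤ ec k
  h3 : ∀ k, ‖hn a b cc k * b k‖ * sc k ≤ (1 / 4 : ℝ) ^ k

lemma Hyp.inc (h : Hyp a b) {t : ℝ} (ht : 0 ≤ t) (K : ℕ) :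
    ‖exp (t • gn a b cc (K + 1)) - exp (t • gn a b cc K)‖
      ≤ 2 * cc K * t + (2 * Real.exp (-(t * mass cc K))
        + (t ^ 2 * ec K) * Real.exp (4 * (1 + t * (mass cc K + 2)))) := by
  have e : exp (t • gn a b cc (K + 1)) - exp (t • gn a b cc K)
      = (exp (t • gn a b cc (K + 1)) - exp (t • hn a b cc K))
        + (exp (t • hn a b cc K) - exp (t • gn a b cc K)) := by abel
  rw [e]
  exact (norm_add_le _ _).trans (add_le_add
    (norm_exp_gn_succ_sub_hn h.ha h.hb cc_nonneg ht K)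
    (norm_exp_hn_sub h.ha h.hb cc_nonneg h.h1 h.h2 ht K))

theorem Hyp.exists_limit (h : Hyp a b) {t : ℝ} (ht : 0 ≤ t) :
    ∃ T : E, Tendsto (fun K => exp (t • gn a b cc K)) atTop (𝓝 T) := by
  rcases ht.eq_or_lt with h0 | h0
  · subst h0
    exact ⟨1, by simp [exp_zero]⟩
  · have hgeo : Summable (fun K : ℕ => (1 / 2 : ℝ) ^ K) := summable_geometric_two
    have hexp : Summable (fun K : ℕ => (Real.exp (-t)) ^ K) :=
      summable_geometric_of_lt_one (Real.exp_pos _).le (Real.exp_lt_one_iff.mpr (by linarith))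
    have hsum : Summable (fun K : ℕ => 2 * t * (1 / 2 : ℝ) ^ K
        + (2 * (Real.exp (-t)) ^ K + (1 / 2 : ℝ) ^ K)) :=
      (hgeo.mul_left _).add ((hexp.mul_left _).add hgeo)
    obtain ⟨N, hN⟩ := exists_nat_ge t
    have hshift : CauchySeq (fun K => exp (t • gn a b cc (K + N))) := by
      refine cauchySeq_of_summable_dist (Summable.of_nonneg_of_le (fun _ => dist_nonneg)
        (fun K => ?_) ((summable_nat_add_iff N).mpr hsum))
      rw [dist_comm, dist_eq_norm]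
      have e : K.succ + N = (K + N) + 1 := by omega
      rw [e]
      refine (h.inc ht (K + N)).trans ?_
      have hle : t ≤ sc (K + N) := by
        refine le_trans ?_ (le_sc (K + N))
        push_cast
        have : (0 : ℝ) ≤ K := Nat.cast_nonneg K
        linarith
      have b1 := ec_bound ht hle
      have b2 : Real.exp (-(t * mass cc (K + N))) ≤ (Real.exp (-t)) ^ (K + N) := by
        rw [← Real.exp_nat_mul]
        apply Real.exp_le_exp.mpr
        have := mul_le_mul_of_nonneg_left (le_mass cc_nonneg (K + N)) ht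
        linarith
      have b3 : 2 * cc (K + N) * t ≤ 2 * t * (1 / 2 : ℝ) ^ (K + N) := by
        have := mul_le_mul_of_nonneg_left (cc_le (K + N)) ht
        linarith
      linarith
    obtain ⟨T, hT⟩ := cauchySeq_tendsto_of_complete hshift
    exact ⟨T, (tendsto_add_atTop_iff_nat (f := fun K => exp (t • gn a b cc K)) N).mp hT⟩

/-- At time `s k` the later jumps are negligible. -/
theorem Hyp.dist_le (h : Hyp a b) {T : E} {k : ℕ} (hk : 1 ≤ k)
    (hT : Tendsto (fun K => exp (sc k • gn a b cc K)) atTop (𝓝 T)) :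
    ‖T - exp (sc k • gn a b cc (k + 1))‖ ≤ 5 * (1 / 2 : ℝ) ^ k := by
  have ht := sc_nonneg k
  have h1s : (1 : ℝ) ≤ sc k := le_trans (by exact_mod_cast hk) (le_sc k)
  have hinc : ∀ j, k < j → ‖exp (sc k • gn a b cc (j + 1)) - exp (sc k • gn a b cc j)‖
      ≤ 5 * (1 / 2 : ℝ) ^ j := by
    intro j hj
    refine (h.inc ht j).trans ?_
    have hle : sc k ≤ sc j := by
      unfold sc
      have h1 : (k : ℝ) ≤ j := by exact_mod_cast hj.le
      have h2 : (2 : ℝ) ^ (k ^ 2) ≤ 2 ^ (j ^ 2) :=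
        pow_le_pow_right₀ (by norm_num) (Nat.pow_le_pow_left hj.le 2)
      exact mul_le_mul h1 h2 (by positivity) (Nat.cast_nonneg j)
    have b1 := ec_bound ht hle
    have b2 : Real.exp (-(sc k * mass cc j)) ≤ (1 / 2 : ℝ) ^ j := by
      have h3 : Real.exp (-(sc k * mass cc j)) ≤ (Real.exp (-1)) ^ j := by
        rw [← Real.exp_nat_mul]
        apply Real.exp_le_exp.mpr
        have h4 := le_mass cc_nonneg j
        have h5 : (0 : ℝ) ≤ j := Nat.cast_nonneg j
        nlinarith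
      refine h3.trans (pow_le_pow_left₀ (Real.exp_pos _).le ?_ j)
      rw [Real.exp_neg, one_div]
      refine inv_anti₀ (by norm_num) ?_
      have := Real.add_one_le_exp (1 : ℝ)
      linarith
    have b3 := cc_mul_sc_lt hj
    linarith
  have hall : ∀ m : ℕ, ‖exp (sc k • gn a b cc (k + 1 + m)) - exp (sc k • gn a b cc (k + 1))‖
      ≤ 5 * ((1 / 2 : ℝ) ^ k - (1 / 2 : ℝ) ^ (k + m)) := by
    intro m
    induction m with
    | zero => simp
    | succ m ih =>
      have h6 := hinc (k + 1 + m) (by omega)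
      have e : exp (sc k • gn a b cc (k + 1 + (m + 1))) - exp (sc k • gn a b cc (k + 1))
          = (exp (sc k • gn a b cc (k + 1 + m + 1)) - exp (sc k • gn a b cc (k + 1 + m)))
            + (exp (sc k • gn a b cc (k + 1 + m)) - exp (sc k • gn a b cc (k + 1))) := by
        rw [← add_assoc]; abel
      rw [e]
      refine (norm_add_le _ _).trans ((add_le_add h6 ih).trans (le_of_eq ?_))
      have e2 : (1 / 2 : ℝ) ^ (k + 1 + m) = (1 / 2 : ℝ) ^ (k + m) * (1 / 2) := by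
        rw [show k + 1 + m = k + m + 1 by omega, pow_succ]
      have e3 : (1 / 2 : ℝ) ^ (k + (m + 1)) = (1 / 2 : ℝ) ^ (k + m) * (1 / 2) := by
        rw [← add_assoc, pow_succ]
      rw [e2, e3]
      ring
  have hT' : Tendsto (fun m => exp (sc k • gn a b cc (k + 1 + m))) atTop (𝓝 T) := by
    have := (tendsto_add_atTop_iff_nat (k + 1)).mpr hT
    refine this.congr (fun m => ?_)
    rw [add_comm m]
  refine le_of_tendsto (hT'.sub_const _).norm (Eventually.of_forall (fun m => ?_))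
  refine (hall m).trans ?_
  have : (0 : ℝ) ≤ (1 / 2 : ℝ) ^ (k + m) := by positivity
  linarith

theorem Hyp.jump_le (h : Hyp a b) {T V : E} {k : ℕ} (hk : 1 ≤ k)
    (hT : Tendsto (fun K => exp (sc k • gn a b cc K)) atTop (𝓝 T)) (hV : ‖V‖ ≤ 2)
    (hVb : ‖V * b k‖ ≤ (1 / 4 : ℝ) ^ k) : ‖V * T‖ ≤ 15 * (1 / 2 : ℝ) ^ k := by
  have h1 := h.dist_le hk hT
  have ht := sc_nonneg k
  have h2 := norm_mul_exp_jump (V := V) (Y := hn a b cc k) (b := b k) (cc_nonneg k) ht
    (fun s hs => norm_exp_hn_le h.ha h.hb cc_nonneg hs k)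
    (fun s hs => by rw [← gn_succ]; exact norm_exp_gn_le h.ha h.hb cc_nonneg hs (k + 1))
    hV hVb le_rfl
  rw [← gn_succ, cc_mul_sc] at h2
  have h3 := h.h3 k
  have e : V * T = V * exp (sc k • gn a b cc (k + 1)) + V * (T - exp (sc k • gn a b cc (k + 1))) := by
    rw [mul_sub]; abel
  rw [e]
  refine (norm_add_le _ _).trans ?_
  have h4 : ‖V * (T - exp (sc k • gn a b cc (k + 1)))‖ ≤ 2 * (5 * (1 / 2 : ℝ) ^ k) := by
    refine (norm_mul_le _ _).trans ?_
    exact mul_le_mul hV h1 (norm_nonneg _) (by norm_num)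
  have h5 : Real.exp (-(k : ℝ)) ≤ (1 / 2 : ℝ) ^ k := by
    have h6 : Real.exp (-(k : ℝ)) = (Real.exp (-1)) ^ k := by
      rw [← Real.exp_nat_mul]; ring_nf
    rw [h6]
    refine pow_le_pow_left₀ (Real.exp_pos _).le ?_ k
    rw [Real.exp_neg, one_div]
    refine inv_anti₀ (by norm_num) ?_
    have := Real.add_one_le_exp (1 : ℝ)
    linarith
  have h7 : (k : ℝ) * (1 / 4 : ℝ) ^ k ≤ (1 / 2 : ℝ) ^ k := by
    have e4 : (1 / 4 : ℝ) ^ k = (1 / 2 : ℝ) ^ k * (1 / 2 : ℝ) ^ k := by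
      rw [← mul_pow]; norm_num
    rw [e4, ← mul_assoc]
    exact mul_le_of_le_one_left (by positivity) (mul_half_pow_le_one k)
  have hk0 : (0 : ℝ) ≤ k := Nat.cast_nonneg k
  have h8 : (k : ℝ) * ((1 / 4 : ℝ) ^ k + 2 * (‖hn a b cc k * b k‖ * sc k))
      ≤ 3 * (1 / 2 : ℝ) ^ k := by
    have := mul_le_mul_of_nonneg_left h3 hk0
    linarith
  linarith

end Main

end Pool.Agent.Helper33.CS
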