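import Mathlib
import Pool.Agent.Lib_helper33.CS.Day
import Pool.Agent.Lib_helper33.CS.Lim
import Pool.Agent.Lib_helper37.SgMain

/-!
The recursive choice of small jumps and of rare almost invariant jumps.
-/

open MeasureTheory Filter Topology NormedSpace
open scoped ENNReal NNReal BoundedContinuousFunction

set_option linter.unusedSectionVars false

namespace Pool.Agent.Helper33.CS

open Pool.Agent.Helper37.Sg

variable {H : Type*} [TopologicalSpace H] [Group H] [IsTopologicalGroup H]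
  [LocallyCompactSpace H] [SecondCountableTopology H] [T2Space H] [MeasurableSpace H]
  [BorelSpace H]

/-- The operator norm distance is bounded by the `L¹` distance of the densities. -/
lemma norm_sub_le_integral {m : Measure H} [SigmaFinite m] {T S : Op H} {σ τ : Measure H}
    (h : Rep T σ) (h' : Rep S τ) (hσ : σ ≪ m) (hτ : τ ≪ m) :
    ‖T - S‖ ≤ ∫ x, |dens σ m x - dens τ m x| ∂m := by
  have := h.fin
  have := h'.fin
  refine h.norm_sub_le h' (integral_nonneg (fun _ => abs_nonneg _)) (fun f => ?_)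
  rw [← integral_dens σ m hσ, ← integral_dens τ m hτ]
  exact abs_integral_mul_fn_sub_le (integrable_dens σ m) (integrable_dens τ m) f

/-- Separability. -/
lemma exists_dense_seq (m : Measure H) [m.IsHaarMeasure] : ∃ w : ℕ → Op H,
    (∀ i, PAC m (w i)) ∧ ∀ V, PAC m V → ∀ ε : ℝ, 0 < ε → ∃ i, ‖V - w i‖ ≤ ε := by
  let S : Set (Lp ℝ 1 m) := {u | ∃ (V : Op H) (α : Measure H) (_ : Rep V α)
    (_ : IsProbabilityMeasure α) (_ : α ≪ m), (u : H → ℝ) =ᵐ[m] dens α m}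
  have hne : Nonempty S := by
    obtain ⟨ρ, hρp, hρac, -, -⟩ := exists_small m (univ_mem : (Set.univ : Set H) ∈ 𝓝 (1 : H))
    obtain ⟨B₀, hB₀⟩ := exists_rep ρ
    exact ⟨⟨(integrable_dens ρ m).toL1 _, B₀, ρ, hB₀, hρp, hρac, Integrable.coeFn_toL1 _⟩⟩
  have hfact : Fact ((1 : ℝ≥0∞) ≠ ∞) := ⟨ENNReal.one_ne_top⟩
  have hsc : SecondCountableTopology (Lp ℝ 1 m) := inferInstance
  let u : ℕ → S := TopologicalSpace.denseSeq S
  have hu : DenseRange u := TopologicalSpace.denseRange_denseSeq S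
  choose V α hV hp hac hd using (fun i => (u i).2)
  refine ⟨V, fun i => ⟨α i, hV i, hp i, hac i⟩, fun W hW ε hε => ?_⟩
  obtain ⟨β, h1, h2, h3⟩ := hW
  let v : S := ⟨(integrable_dens β m).toL1 _, W, β, h1, h2, h3, Integrable.coeFn_toL1 _⟩
  obtain ⟨i, hi⟩ := Metric.denseRange_iff.mp hu v ε hε
  refine ⟨i, (norm_sub_le_integral h1 (hV i) h3 (hac i)).trans ?_⟩
  have e : ∫ x, |dens β m x - dens (α i) m x| ∂m = dist v (u i) := by
    rw [Subtype.dist_eq, dist_eq_norm, L1.norm_eq_integral_norm]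
    refine integral_congr_ae ?_
    filter_upwards [Lp.coeFn_sub (v : Lp ℝ 1 m) (u i), Integrable.coeFn_toL1
      (integrable_dens β m), hd i] with x h4 h5 h6
    rw [h4, Pi.sub_apply, h6]
    have h5' : (v : Lp ℝ 1 m) x = dens β m x := h5
    rw [h5', Real.norm_eq_abs]
  rw [e]
  exact hi.le

/-- Symmetric absolutely continuous operators of given mass. -/
def GoodM (m : Measure H) (M : ℝ) (S : Op H) : Prop :=
  ∃ α, Rep S α ∧ α ≪ m ∧ α.inv = α ∧ α.real Set.univ = M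

lemma GoodM.good {m : Measure H} {M : ℝ} {S : Op H} (h : GoodM m M S) : Good m S := by
  obtain ⟨α, h1, h2, h3, _⟩ := h
  exact ⟨α, h1, h2, h3⟩

lemma GoodM.zero (m : Measure H) : GoodM m 0 (0 : Op H) :=
  ⟨0, rep_zero, Measure.AbsolutelyContinuous.zero m, by simp [Measure.inv], by simp⟩

lemma GoodM.add {m : Measure H} {M N : ℝ} {S T : Op H} (hS : GoodM m M S) (hT : GoodM m N T) :
    GoodM m (M + N) (S + T) := by
  obtain ⟨α, h1, h2, h3, h4⟩ := hS
  obtain ⟨β, g1, g2, g3, g4⟩ := hT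
  have := h1.fin
  have := g1.fin
  refine ⟨α + β, h1.add g1, h2.add_left g2, by rw [inv_add, h3, g3], ?_⟩
  rw [measureReal_add_apply, h4, g4]

lemma GoodM.smul {m : Measure H} {M : ℝ} {S : Op H} (hS : GoodM m M S) {c : ℝ} (hc : 0 ≤ c) :
    GoodM m (c * M) (c • S) := by
  obtain ⟨α, h1, h2, h3, h4⟩ := hS
  lift c to ℝ≥0 using hc
  refine ⟨c • α, h1.smul c, h2.smul_left _, ?_, ?_⟩
  · have : (c • α : Measure H) = (c : ℝ≥0∞) • α := rfl
    rw [this, inv_smul, h3]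
  · rw [← h4, measureReal_nnreal_smul_apply]

lemma goodM_of_goodP {m : Measure H} {S : Op H} (h : GoodP m S) : GoodM m 1 S := by
  obtain ⟨α, h1, h2, h3, h4⟩ := h
  exact ⟨α, h1, h3, h4, by simp⟩

lemma GoodM.pac {m : Measure H} {M : ℝ} {S : Op H} (hS : GoodM m M S) (hM : 0 < M) :
    PAC m (M⁻¹ • S) := by
  obtain ⟨α, h1, h2, h3, h4⟩ := hS.smul (inv_nonneg.mpr hM.le)
  have := h1.fin
  rw [inv_mul_cancel₀ hM.ne'] at h4
  refine ⟨α, h1, ⟨?_⟩, h2⟩
  rw [measureReal_def] at h4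
  exact (ENNReal.toReal_eq_one_iff _).mp h4

/-- One step of the recursive choice. -/
lemma step (m : Measure H) [m.IsHaarMeasure] {M : (H →ᵇ ℝ) →ₗ[ℝ] ℝ} (hM : IsLeftInvMean M)
    (Φ : ℕ → Bd H)
    (hΦ : ∀ j, ∀ ε : ℝ, 0 < ε → ∃ U ∈ 𝓝 (1 : H), ∀ y ∈ U, ∀ x,
      |fn (Φ j) (x * y) - fn (Φ j) x| ≤ ε) (w : ℕ → Op H) (hw : ∀ i, PAC m (w i))
    (k : ℕ) (S : Op H) (hS : GoodM m (mass cc k) S) :
    ∃ A B : Op H, GoodP m A ∧ GoodP m B ∧ ‖(A - 1) * S‖ ≤ ec k ∧
      ‖S * (A - 1)‖ ≤ ec k ∧ (∀ j ≤ k, ‖A (Φ j) - Φ j‖ ≤ (1 / 2 : ℝ) ^ k) ∧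
      ‖((S - mass cc k • (1 : Op H)) + (A - 1)) * B‖ * sc k ≤ (1 / 4 : ℝ) ^ k ∧
      ∀ i ≤ k, ‖(w i - 1) * B‖ ≤ (1 / 4 : ℝ) ^ k := by
  obtain ⟨α, h1, h2, h3⟩ := hS.good
  have := h1.fin
  have hk := ec_pos k
  obtain ⟨U, hU, hUe⟩ := exists_nhds_transl m α h2 hk
  have hV : ∀ j, ∃ V ∈ 𝓝 (1 : H), ∀ y ∈ V, ∀ x,
      |fn (Φ j) (x * y) - fn (Φ j) x| ≤ (1 / 2 : ℝ) ^ k := fun j => hΦ j _ (by positivity)
  choose V hV hVe using hV
  have hW : U ∩ ⋂ j ∈ Finset.range (k + 1), V j ∈ 𝓝 (1 : H) := by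
    refine inter_mem hU ?_
    rw [Filter.biInter_finset_mem]
    intro j _
    exact hV j
  obtain ⟨ρ, hρp, hρac, hρinv, hρW⟩ := exists_small m hW
  obtain ⟨T, hT⟩ := exists_rep ρ
  have hTG : GoodP m T := ⟨ρ, hT, hρp, hρac, hρinv⟩
  have hl : ‖T * S - S‖ ≤ ec k :=
    norm_mul_sub_le hT h1 (hρW.mono (fun y hy => hy.1)) hk.le hUe
  have hmass : 0 < mass cc k + 1 := by
    have := mass_nonneg cc_nonneg k
    linarith
  have hP : PAC m ((mass cc k + 1)⁻¹ • (S + T)) := (hS.add (goodM_of_goodP hTG)).pac hmass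
  have hs0 := sc_nonneg k
  obtain ⟨B, hB, hBe⟩ := exists_almost_inv_symm m hM
    (fun i : Option (Fin (k + 1)) => Option.elim i ((mass cc k + 1)⁻¹ • (S + T)) (fun j => w j))
    (fun i => by
      cases i with
      | none => exact hP
      | some j => exact hw j)
    (ε := (1 / 4 : ℝ) ^ k / ((mass cc k + 1) * (1 + sc k))) (by positivity)
  have hden : 1 ≤ (mass cc k + 1) * (1 + sc k) := by
    have := mass_nonneg cc_nonneg k
    nlinarith
  refine ⟨T, B, hTG, hB, ?_, ?_, ?_, ?_, ?_⟩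
  · rw [sub_mul, one_mul]
    exact hl
  · rw [mul_sub, mul_one]
    exact (norm_mul_sub_le' hT h1 hρinv h3).trans hl
  · intro j hj
    refine norm_apply_sub_le hT (U := V j) (hρW.mono (fun y hy => ?_)) (by positivity) (hVe j)
    have h5 := hy.2
    simp only [Set.mem_iInter] at h5
    exact h5 j (Finset.mem_range.mpr (by omega))
  · have h6 := hBe none
    simp only [Option.elim] at h6
    have e : (S - mass cc k • (1 : Op H)) + (T - 1)
        = (mass cc k + 1) • ((mass cc k + 1)⁻¹ • (S + T) - 1) := by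
      rw [smul_sub, smul_smul, mul_inv_cancel₀ hmass.ne', one_smul, add_smul, one_smul]
      abel
    rw [e, smul_mul_assoc, norm_smul, Real.norm_eq_abs, abs_of_pos hmass]
    calc (mass cc k + 1) * ‖((mass cc k + 1)⁻¹ • (S + T) - 1) * B‖ * sc k
        ≤ (mass cc k + 1) * ((1 / 4 : ℝ) ^ k / ((mass cc k + 1) * (1 + sc k))) * (1 + sc k) := by
          refine mul_le_mul (mul_le_mul_of_nonneg_left h6 hmass.le) (by linarith) hs0
            (by positivity)
      _ = (1 / 4 : ℝ) ^ k := by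
          field_simp
  · intro i hi
    have h6 := hBe (some ⟨i, by omega⟩)
    simp only [Option.elim] at h6
    refine h6.trans ?_
    exact div_le_self (by positivity) hden

/-- The recursive choice. -/
theorem exists_seq (m : Measure H) [m.IsHaarMeasure] {M : (H →ᵇ ℝ) →ₗ[ℝ] ℝ}
    (hM : IsLeftInvMean M) (Φ : ℕ → Bd H)
    (hΦ : ∀ j, ∀ ε : ℝ, 0 < ε → ∃ U ∈ 𝓝 (1 : H), ∀ y ∈ U, ∀ x,
      |fn (Φ j) (x * y) - fn (Φ j) x| ≤ ε) (w : ℕ → Op H) (hw : ∀ i, PAC m (w i)) :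
    ∃ a b : ℕ → Op H, (∀ k, GoodP m (a k)) ∧ (∀ k, GoodP m (b k)) ∧ Hyp a b ∧
      (∀ k, AC m (tot a b cc k)) ∧
      (∀ k, ∀ j ≤ k, ‖a k (Φ j) - Φ j‖ ≤ (1 / 2 : ℝ) ^ k) ∧
      ∀ k, ∀ i ≤ k, ‖(w i - 1) * b k‖ ≤ (1 / 4 : ℝ) ^ k := by
  choose! fA fB hAB using step m hM Φ hΦ w hw
  let st : ℕ → Op H := fun n => Nat.rec 0 (fun k S => S + (fA k S + cc k • fB k S)) n
  have hst0 : st 0 = 0 := rfl
  have hsts : ∀ k, st (k + 1) = st k + (fA k (st k) + cc k • fB k (st k)) := fun k => rfl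
  have hgood : ∀ k, GoodM m (mass cc k) (st k) := by
    intro k
    induction k with
    | zero =>
      rw [hst0]
      simpa [mass] using GoodM.zero m
    | succ k ih =>
      obtain ⟨h1, h2, -⟩ := hAB k (st k) ih
      rw [hsts, mass_succ]
      have h3 := (goodM_of_goodP h1).add ((goodM_of_goodP h2).smul (cc_nonneg k))
      rw [mul_one] at h3
      exact ih.add h3
  let a : ℕ → Op H := fun k => fA k (st k)
  let b : ℕ → Op H := fun k => fB k (st k)
  have htot : ∀ k, tot a b cc k = st k := by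
    intro k
    induction k with
    | zero => simp [tot, hst0]
    | succ k ih => rw [tot_succ, ih, hsts]
  refine ⟨a, b, fun k => (hAB k (st k) (hgood k)).1, fun k => (hAB k (st k) (hgood k)).2.1,
    ⟨?_, ?_, ?_, ?_, ?_⟩, ?_, ?_, ?_⟩
  · exact fun k => (hAB k (st k) (hgood k)).1.norm_le
  · exact fun k => (hAB k (st k) (hgood k)).2.1.norm_le
  · intro k
    rw [htot]
    exact (hAB k (st k) (hgood k)).2.2.2.1
  · intro k
    rw [htot]
    exact (hAB k (st k) (hgood k)).2.2.1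
  · intro k
    rw [hn, gn, htot]
    exact (hAB k (st k) (hgood k)).2.2.2.2.2.1
  · intro k
    rw [htot]
    exact (hgood k).good.ac
  · exact fun k => (hAB k (st k) (hgood k)).2.2.2.2.1
  · exact fun k => (hAB k (st k) (hgood k)).2.2.2.2.2.2

end Pool.Agent.Helper33.CS
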