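import Mathlib
import Pool.Agent.Lib_helper33.CS.Rec

/-!
The absolutely continuous, asymptotically left invariant convolution semigroup on an amenable
second countable locally compact group.
-/

open MeasureTheory Filter Topology NormedSpace
open scoped ENNReal NNReal BoundedContinuousFunction

set_option linter.unusedSectionVars false

namespace Pool.Agent.Helper33.CS

open Pool.Agent.Helper37.Sg

variable {H : Type*} [TopologicalSpace H] [Group H] [IsTopologicalGroup H]
  [LocallyCompactSpace H] [SecondCountableTopology H] [T2Space H] [MeasurableSpace H]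
  [BorelSpace H]

lemma gn_apply (a b : ℕ → Op H) (K : ℕ) (g : Bd H) :
    gn a b cc K g = ∑ k ∈ Finset.range K, ((a k g - g) + cc k • (b k g - g)) := by
  induction K with
  | zero => simp [gn, tot, mass]
  | succ K ih =>
    rw [gn_succ, hn, add_apply, add_apply, ih, Finset.sum_range_succ, smul_apply, sub_apply,
      sub_apply, one_apply_eq_self, add_assoc]

lemma norm_gn_apply_le {m : Measure H} {a b : ℕ → Op H} (ha : ∀ k, GoodP m (a k))
    (hb : ∀ k, GoodP m (b k)) {g : Bd H}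
    {j : ℕ} (hg : ∀ k, j ≤ k → ‖a k g - g‖ ≤ (1 / 2 : ℝ) ^ k) (K : ℕ) :
    ‖gn a b cc K g‖ ≤ (j * (2 * ‖g‖) + 2) + 4 * ‖g‖ := by
  rw [gn_apply, Finset.sum_add_distrib]
  refine (norm_add_le _ _).trans (add_le_add ?_ ?_)
  · rw [← gen_apply]
    exact norm_gen_apply_le ha hg K
  · calc ‖∑ k ∈ Finset.range K, cc k • (b k g - g)‖
        ≤ ∑ k ∈ Finset.range K, ‖cc k • (b k g - g)‖ := norm_sum_le _ _
      _ ≤ ∑ k ∈ Finset.range K, (1 / 2 : ℝ) ^ k * (2 * ‖g‖) := by
          refine Finset.sum_le_sum (fun k _ => ?_)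
          rw [norm_smul, Real.norm_eq_abs, abs_of_nonneg (cc_nonneg k)]
          refine mul_le_mul (cc_le k) ?_ (norm_nonneg _) (by positivity)
          have h2 : ‖b k g‖ ≤ ‖g‖ := by
            refine (ContinuousLinearMap.le_opNorm _ _).trans ?_
            exact mul_le_of_le_one_left (norm_nonneg _) (hb k).norm_le
          have h3 := norm_sub_le (b k g) g
          linarith
      _ = (∑ k ∈ Finset.range K, (1 / 2 : ℝ) ^ k) * (2 * ‖g‖) := by rw [Finset.sum_mul]
      _ ≤ 2 * (2 * ‖g‖) := by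
          refine mul_le_mul_of_nonneg_right ?_ (by positivity)
          calc ∑ k ∈ Finset.range K, (1 / 2 : ℝ) ^ k ≤ ∑' k : ℕ, (1 / 2 : ℝ) ^ k :=
                summable_geometric_two.sum_le_tsum _ (fun _ _ => by positivity)
            _ = 2 := tsum_geometric_two
      _ = 4 * ‖g‖ := by ring

/-- Total variation distance of two finite measures is at most `ε`, tested on bounded measurable
functions. -/
def TVle (σ τ : Measure H) (ε : ℝ) : Prop :=
  ∀ f : Bd H, |∫ x, fn f x ∂σ - ∫ x, fn f x ∂τ| ≤ ε * ‖f‖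

theorem exists_inv_semigroup (m : Measure H) [m.IsHaarMeasure] {M : (H →ᵇ ℝ) →ₗ[ℝ] ℝ}
    (hM : IsLeftInvMean M) :
    ∃ μ : ℝ≥0 → Measure H, (∀ t, IsProbabilityMeasure (μ t)) ∧ μ 0 = Measure.dirac 1 ∧
      (∀ s t, μ (s + t) = Measure.mconv (μ s) (μ t)) ∧
      (∀ U ∈ 𝓝 (1 : H), ∃ C : ℝ, ∀ t, (μ t).real Uᶜ ≤ C * t) ∧
      (∀ t, 0 < t → μ t ≪ m) ∧
      ∀ ω : Measure H, IsProbabilityMeasure ω → ω ≪ m → ∀ ε : ℝ, 0 < ε →
        ∃ t₀, ∀ t, t₀ ≤ t → TVle (Measure.mconv ω (μ t)) (μ t) ε := by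
  obtain ⟨U, Φ, hU, hΦ1, hΦ0, hΦnn, hΦle, hΦu⟩ := exists_bumps (H := H)
  obtain ⟨w, hw, hwd⟩ := exists_dense_seq m
  obtain ⟨a, b, haP, hbP, hyp, hac, hΦa, hwb⟩ := exists_seq m hM Φ hΦu w hw
  have ha : ∀ k, ‖a k‖ ≤ 1 := fun k => (haP k).norm_le
  have hb : ∀ k, ‖b k‖ ≤ 1 := fun k => (hbP k).norm_le
  have hlim : ∀ t : ℝ≥0, ∃ T : Op H,
      Tendsto (fun K => exp ((t : ℝ) • gn a b cc K)) atTop (𝓝 T) :=
    fun t => hyp.exists_limit t.2
  choose T hT using hlim
  have hT0 : T 0 = 1 := by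
    refine tendsto_nhds_unique (hT 0) ?_
    simp [exp_zero]
  have hTn : ∀ t, ‖T t‖ ≤ 1 := fun t =>
    le_of_tendsto (hT t).norm (Eventually.of_forall (fun K =>
      norm_exp_gn_le ha hb cc_nonneg t.2 K))
  have hTadd : ∀ s t, T (s + t) = T s * T t := by
    intro s t
    refine tendsto_nhds_unique (hT (s + t)) (((hT s).mul (hT t)).congr (fun K => ?_))
    rw [← exp_add_comm' (((Commute.refl (gn a b cc K)).smul_left _).smul_right _), ← add_smul]
    rfl
  have hAC : ∀ t : ℝ≥0, 0 < t → AC m (T t) := by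
    intro t ht
    have ht' : (0 : ℝ) < t := ht
    have h3 : ∀ K : ℕ, AC m (exp ((t : ℝ) • gn a b cc K)
        - Real.exp (-((t : ℝ) * mass cc K)) • (1 : Op H)) := by
      intro K
      have e : (t : ℝ) • gn a b cc K
          = (t : ℝ) • tot a b cc K - ((t : ℝ) * mass cc K) • (1 : Op H) := by
        rw [gn, smul_sub, smul_smul]
      rw [e, exp_sub_smul_one, ← smul_sub]
      exact ((hac K).exp_sub_one t.2).smul (Real.exp_pos _).le
    refine AC.limit h3 ?_
    have h4 : Tendsto (fun K : ℕ => Real.exp (-((t : ℝ) * mass cc K)) • (1 : Op H)) atTop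
        (𝓝 0) := by
      have h5 : Tendsto (fun K : ℕ => (t : ℝ) * mass cc K) atTop atTop := by
        refine Tendsto.const_mul_atTop ht' ?_
        exact tendsto_atTop_mono (fun K => le_mass cc_nonneg K) tendsto_natCast_atTop_atTop
      have h6 := (Real.tendsto_exp_neg_atTop_nhds_zero.comp h5).smul_const (1 : Op H)
      simpa using h6
    simpa using (hT t).sub h4
  have hone : ∀ t, T t one' = one' := by
    intro t
    have h3 : ∀ K, exp ((t : ℝ) • gn a b cc K) one' = one' := by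
      intro K
      have h4 := norm_exp_apply_sub_le (G := gn a b cc K)
        (fun s hs => norm_exp_gn_le ha hb cc_nonneg hs K) one' t.2
      have h5 : gn a b cc K one' = 0 := by
        rw [gn_apply]
        refine Finset.sum_eq_zero (fun k _ => ?_)
        rw [(haP k).map_one, (hbP k).map_one, sub_self, smul_zero, add_zero]
      rw [h5, norm_zero, zero_mul] at h4
      exact sub_eq_zero.mp (norm_le_zero_iff.mp h4)
    have h6 : Tendsto (fun K => exp ((t : ℝ) • gn a b cc K) one') atTop (𝓝 (T t one')) :=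
      ((ContinuousLinearMap.apply ℝ (Bd H) one').continuous.tendsto _).comp (hT t)
    simp only [h3] at h6
    exact tendsto_nhds_unique h6 tendsto_const_nhds
  have hrep : ∀ t : ℝ≥0, ∃ μ, Rep (T t) μ ∧ (0 < t → μ ≪ m) := by
    intro t
    rcases (zero_le : 0 ≤ t).eq_or_lt with h | h
    · subst h
      exact ⟨Measure.dirac 1, by rw [hT0]; exact rep_one, fun h => absurd h (lt_irrefl _)⟩
    · obtain ⟨μ, h3, h4⟩ := hAC t h
      exact ⟨μ, h3, fun _ => h4⟩
  choose μ hμ hμac using hrep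
  have hfin : ∀ t, IsFiniteMeasure (μ t) := fun t => (hμ t).fin
  have hprob : ∀ t, IsProbabilityMeasure (μ t) := by
    intro t
    have h3 := (hμ t).eq_one one'
    rw [hone, fn_one'] at h3
    simp only [fn_one'] at h3
    rw [integral_const, smul_eq_mul, mul_one] at h3
    refine ⟨?_⟩
    rw [measureReal_def] at h3
    exact (ENNReal.toReal_eq_one_iff _).mp h3.symm
  refine ⟨μ, hprob, ?_, ?_, ?_, hμac, ?_⟩
  · have h3 := hμ 0
    rw [hT0] at h3
    exact h3.inj rep_one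
  · intro s t
    have h3 := hμ (s + t)
    rw [hTadd] at h3
    exact h3.inj ((hμ s).mul (hμ t))
  · intro V hV
    obtain ⟨j, -, hj⟩ := hU.1.mem_iff.mp hV
    refine ⟨(j * (2 * ‖Φ j‖) + 2) + 4 * ‖Φ j‖, fun t => ?_⟩
    have h3 : ‖T t (Φ j) - Φ j‖ ≤ ((j * (2 * ‖Φ j‖) + 2) + 4 * ‖Φ j‖) * t := by
      have h4 : ∀ K, ‖exp ((t : ℝ) • gn a b cc K) (Φ j) - Φ j‖
          ≤ ((j * (2 * ‖Φ j‖) + 2) + 4 * ‖Φ j‖) * t := by
        intro K
        refine (norm_exp_apply_sub_le (fun s hs => norm_exp_gn_le ha hb cc_nonneg hs K)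
          (Φ j) t.2).trans ?_
        exact mul_le_mul_of_nonneg_right
          (norm_gn_apply_le haP hbP (fun k hk => hΦa k j hk) K) t.2
      have h6 : Tendsto (fun K => exp ((t : ℝ) • gn a b cc K) (Φ j)) atTop (𝓝 (T t (Φ j))) :=
        ((ContinuousLinearMap.apply ℝ (Bd H) (Φ j)).continuous.tendsto _).comp (hT t)
      exact le_of_tendsto (h6.sub_const (Φ j)).norm (Eventually.of_forall h4)
    have h7 : (μ t).real Vᶜ ≤ 1 - ∫ x, fn (Φ j) x ∂(μ t) := by
      have h8 : (1 : ℝ) - ∫ x, fn (Φ j) x ∂(μ t) = ∫ x, (1 - fn (Φ j) x) ∂(μ t) := by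
        rw [integral_sub (integrable_const _) (integrable_fn (Φ j) _)]
        simp
      rw [h8]
      have h9 := mul_meas_ge_le_integral_of_nonneg (μ := μ t) (f := fun x => 1 - fn (Φ j) x)
        (Eventually.of_forall (fun x => by
          show (0 : ℝ) ≤ 1 - fn (Φ j) x
          linarith [hΦle j x])) ((integrable_const _).sub (integrable_fn (Φ j) _)) 1
      rw [one_mul] at h9
      refine le_trans (measureReal_mono (fun x hx => ?_)) h9
      show (1 : ℝ) ≤ 1 - fn (Φ j) x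
      rw [hΦ0 j x (fun h => hx (hj h))]
      simp
    have h10 : 1 - ∫ x, fn (Φ j) x ∂(μ t) ≤ ‖T t (Φ j) - Φ j‖ := by
      rw [← (hμ t).eq_one (Φ j), ← hΦ1 j, ← neg_sub, ← fn_sub]
      exact (neg_le_abs _).trans (abs_fn_le _ _)
    linarith
  · intro ω hω hωac ε hε
    obtain ⟨V, hV⟩ := exists_rep ω
    have hVP : PAC m V := ⟨ω, hV, hω, hωac⟩
    obtain ⟨i, hi⟩ := hwd V hVP (ε / 2) (by positivity)
    have hgeo : Tendsto (fun k : ℕ => 15 * (1 / 2 : ℝ) ^ k) atTop (𝓝 (15 * 0)) :=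
      (tendsto_pow_atTop_nhds_zero_of_lt_one (by norm_num) (by norm_num)).const_mul 15
    rw [mul_zero] at hgeo
    obtain ⟨k, hk⟩ := ((hgeo.eventually (gt_mem_nhds (show 0 < ε / 2 by positivity))).and
      (eventually_ge_atTop (max i 1))).exists
    have hcoe : ((Real.toNNReal (sc k) : ℝ≥0) : ℝ) = sc k := Real.coe_toNNReal _ (sc_nonneg k)
    obtain ⟨t₀, ht₀⟩ : ∃ t₀ : ℝ≥0, (t₀ : ℝ) = sc k := ⟨_, hcoe⟩
    refine ⟨t₀, fun t ht => ?_⟩
    have hk1 : 1 ≤ k := le_trans (le_max_right _ _) hk.2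
    have hki : i ≤ k := le_trans (le_max_left _ _) hk.2
    have hVn : ∀ X : Op H, PAC m X → ‖X - 1‖ ≤ 2 := fun X hX =>
      (norm_sub_le _ _).trans (by rw [norm_one]; linarith [hX.norm_le])
    have h1 : ‖(w i - 1) * T t₀‖ ≤ 15 * (1 / 2 : ℝ) ^ k := by
      have h0 := hT t₀
      rw [ht₀] at h0
      exact hyp.jump_le hk1 h0 (hVn _ (hw i)) (hwb k i hki)
    obtain ⟨r, rfl⟩ := exists_add_of_le ht
    have h2 : ‖(w i - 1) * T (t₀ + r)‖ ≤ ε / 2 := by
      rw [hTadd, ← mul_assoc]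
      refine (norm_mul_le _ _).trans ?_
      exact (mul_le_of_le_one_right (norm_nonneg _) (hTn r)).trans (h1.trans hk.1.le)
    have h3 : ‖V * T (t₀ + r) - T (t₀ + r)‖ ≤ ε := by
      have e : V * T (t₀ + r) - T (t₀ + r)
          = (V - w i) * T (t₀ + r) + (w i - 1) * T (t₀ + r) := by
        noncomm_ring
      rw [e]
      refine (norm_add_le _ _).trans ?_
      have h4 : ‖(V - w i) * T (t₀ + r)‖ ≤ ε / 2 :=
        (norm_mul_le _ _).trans ((mul_le_of_le_one_right (norm_nonneg _) (hTn _)).trans hi)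
      linarith
    intro f
    exact ((hV.mul (hμ _)).abs_integral_sub_le (hμ _) f).trans
      (mul_le_mul_of_nonneg_right h3 (norm_nonneg _))

end Pool.Agent.Helper33.CS
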