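import Mathlib
import Pool.Agent.Lib_helper33.CS.SemA

/-!
The left regular representation on `L²`, the operators `λ(μ)` and almost invariant vectors.
-/

open MeasureTheory Filter Topology NormedSpace
open scoped ENNReal NNReal BoundedContinuousFunction ComplexInnerProductSpace

set_option linter.unusedSectionVars false

namespace Pool.Agent.Helper33.CS

open Pool.Agent.Helper37.Sg

variable {H : Type*} [TopologicalSpace H] [Group H] [IsTopologicalGroup H]
  [LocallyCompactSpace H] [SecondCountableTopology H] [T2Space H] [MeasurableSpace H]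
  [BorelSpace H]

/-- The left regular representation `(λ_s f)(x) = f(s⁻¹ x)` on `L²(H, m)`. -/
noncomputable def lreg (m : Measure H) [m.IsHaarMeasure] (s : H) (f : Lp ℂ 2 m) : Lp ℂ 2 m :=
  DomMulAct.mk s⁻¹ • f

section Lreg

variable {m : Measure H} [m.IsHaarMeasure]

lemma continuous_lreg (f : Lp ℂ 2 m) : Continuous (fun s : H => lreg m s f) := by
  have h1 : Continuous (fun y : H => (DomMulAct.mk y⁻¹ : Hᵈᵐᵃ)) :=
    DomMulAct.continuous_mk.comp continuous_inv
  have hfact : Fact ((2 : ℝ≥0∞) ≠ ∞) := ⟨ENNReal.ofNat_ne_top⟩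
  exact h1.smul continuous_const

lemma norm_lreg (s : H) (f : Lp ℂ 2 m) : ‖lreg m s f‖ = ‖f‖ := by
  unfold lreg
  rw [DomMulAct.norm_smul_Lp]

lemma lreg_add (s : H) (f g : Lp ℂ 2 m) : lreg m s (f + g) = lreg m s f + lreg m s g := by
  unfold lreg
  rw [DomMulAct.smul_Lp_add]

lemma lreg_smul (s : H) (c : ℂ) (f : Lp ℂ 2 m) : lreg m s (c • f) = c • lreg m s f := by
  unfold lreg
  rw [smul_comm]

lemma lreg_zero (s : H) : lreg m s (0 : Lp ℂ 2 m) = 0 := by
  unfold lreg
  rw [DomMulAct.smul_Lp_zero]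

lemma integrable_lreg (μ : Measure H) [IsFiniteMeasure μ] (f : Lp ℂ 2 m) :
    Integrable (fun s => lreg m s f) μ :=
  Integrable.of_bound (continuous_lreg f).aestronglyMeasurable ‖f‖
    (Eventually.of_forall (fun s => (norm_lreg s f).le))

lemma integral_lreg_of_not_finite {μ : Measure H} (h : ¬ IsFiniteMeasure μ) (f : Lp ℂ 2 m) :
    ∫ s, lreg m s f ∂μ = 0 := by
  by_cases hf : f = 0
  · subst hf
    simp [lreg_zero]
  · refine integral_undef (fun hi => h ?_)
    have h1 := hi.norm
    simp only [norm_lreg] at h1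
    rw [integrable_const_iff] at h1
    rcases h1 with h1 | h1
    · exact absurd (norm_eq_zero.mp h1) hf
    · exact h1

end Lreg

/-- The operator `λ(μ) = ∫ λ_s dμ(s)` on `L²(H, m)` (for a finite measure `μ`). -/
noncomputable def lop (m : Measure H) [m.IsHaarMeasure] (μ : Measure H) :
    Lp ℂ 2 m →L[ℂ] Lp ℂ 2 m :=
  LinearMap.mkContinuous
    { toFun := fun f => ∫ s, lreg m s f ∂μ
      map_add' := fun f g => by
        by_cases h : IsFiniteMeasure μ
        · simp only [lreg_add]
          exact integral_add (integrable_lreg μ f) (integrable_lreg μ g)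
        · rw [integral_lreg_of_not_finite h, integral_lreg_of_not_finite h,
            integral_lreg_of_not_finite h, add_zero]
      map_smul' := fun c f => by
        simp only [lreg_smul, RingHom.id_apply]
        exact integral_smul c _ }
    (μ.real Set.univ) (fun f => by
      by_cases h : IsFiniteMeasure μ
      · have := norm_integral_le_of_norm_le_const (μ := μ) (f := fun s => lreg m s f) (C := ‖f‖)
          (Eventually.of_forall (fun s => (norm_lreg s f).le))
        rw [mul_comm]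
        exact this
      · have h2 := integral_lreg_of_not_finite h f
        show ‖∫ s, lreg m s f ∂μ‖ ≤ _
        rw [h2, norm_zero]
        positivity)

section Lop

variable {m : Measure H} [m.IsHaarMeasure]

lemma lop_apply (μ : Measure H) (f : Lp ℂ 2 m) : lop m μ f = ∫ s, lreg m s f ∂μ := rfl

lemma norm_lop_le (μ : Measure H) [IsProbabilityMeasure μ] : ‖lop m μ‖ ≤ 1 := by
  refine ContinuousLinearMap.opNorm_le_bound _ zero_le_one (fun f => ?_)
  rw [lop_apply]
  have := norm_integral_le_of_norm_le_const (μ := μ) (f := fun s => lreg m s f) (C := ‖f‖)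
    (Eventually.of_forall (fun s => (norm_lreg s f).le))
  simpa using this

/-- The operator norm is bounded by the total variation. -/
lemma norm_lop_sub_le {μ ν : Measure H} [IsFiniteMeasure μ] [IsFiniteMeasure ν] {ε : ℝ}
    (hε : 0 ≤ ε) (h : TVle μ ν ε) : ‖lop m μ - lop m ν‖ ≤ ε := by
  refine ContinuousLinearMap.opNorm_le_bound _ hε (fun f => ?_)
  set v := (lop m μ - lop m ν) f with hv
  by_cases hv0 : ‖v‖ = 0
  · rw [hv0]; positivity
  have hvpos : 0 < ‖v‖ := lt_of_le_of_ne (norm_nonneg _) (Ne.symm hv0)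
  have hcont : Continuous (fun s : H => (⟪v, lreg m s f⟫).re) :=
    Complex.continuous_re.comp (continuous_const.inner (continuous_lreg f))
  have hbd : ∀ s : H, |(⟪v, lreg m s f⟫).re| ≤ ‖v‖ * ‖f‖ := by
    intro s
    refine (Complex.abs_re_le_norm _).trans ?_
    refine (norm_inner_le_norm _ _).trans ?_
    rw [norm_lreg]
  let g : Bd H := mkBM (fun s => (⟪v, lreg m s f⟫).re) hcont.measurable ⟨_, hbd⟩
  have hg : ‖g‖ ≤ ‖v‖ * ‖f‖ := norm_le_of (by positivity) hbd
  have hint : ∀ (κ : Measure H) [IsFiniteMeasure κ], (⟪v, lop m κ f⟫).re = ∫ s, fn g s ∂κ := by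
    intro κ _
    rw [lop_apply, ← integral_inner (integrable_lreg κ f) v]
    have := integral_re (𝕜 := ℂ) ((integrable_lreg κ f).const_inner (𝕜 := ℂ) v)
    exact this.symm
  have h1 : ‖v‖ ^ 2 = (⟪v, v⟫).re := by
    rw [inner_self_eq_norm_sq_to_K]
    norm_cast
  have h2 : (⟪v, v⟫).re = ∫ s, fn g s ∂μ - ∫ s, fn g s ∂ν := by
    rw [← hint μ, ← hint ν, ← Complex.sub_re, ← inner_sub_right]
    rw [hv]
    rfl
  have h3 : ‖v‖ ^ 2 ≤ ε * (‖v‖ * ‖f‖) := by
    rw [h1, h2]
    exact (le_abs_self _).trans ((h g).trans (mul_le_mul_of_nonneg_left hg hε))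
  have h4 : ‖v‖ * ‖v‖ ≤ ‖v‖ * (ε * ‖f‖) := by
    calc ‖v‖ * ‖v‖ = ‖v‖ ^ 2 := (sq _).symm
      _ ≤ ε * (‖v‖ * ‖f‖) := h3
      _ = ‖v‖ * (ε * ‖f‖) := by ring
  exact le_of_mul_le_mul_left h4 hvpos

end Lop

end Pool.Agent.Helper33.CS
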