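import Mathlib
import Pool.Agent.Lib_helper33.CS.L2

/-!
Almost invariant probability densities and almost invariant unit vectors, uniformly on compact
sets; the norm of `λ(μ)`.
-/

open MeasureTheory Filter Topology NormedSpace
open scoped ENNReal NNReal BoundedContinuousFunction ComplexInnerProductSpace

set_option linter.unusedSectionVars false

namespace Pool.Agent.Helper33.CS

open Pool.Agent.Helper37.Sg

variable {H : Type*} [TopologicalSpace H] [Group H] [IsTopologicalGroup H]
  [LocallyCompactSpace H] [SecondCountableTopology H] [T2Space H] [MeasurableSpace H]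
  [BorelSpace H]

lemma exists_compact_inv (m : Measure H) [m.IsHaarMeasure] {M : (H →ᵇ ℝ) →ₗ[ℝ] ℝ}
    (hM : IsLeftInvMean M) {K : Set H} (hK : IsCompact K) {ε : ℝ} (hε : 0 < ε) :
    ∃ V : Op H, PAC m V ∧ ∀ s ∈ K, ‖dop s * V - V‖ ≤ ε := by
  obtain ⟨ρ, hρp, hρac, -, -⟩ := exists_small m (univ_mem : (Set.univ : Set H) ∈ 𝓝 (1 : H))
  obtain ⟨W, hW⟩ := exists_rep ρ
  have hWP : PAC m W := ⟨ρ, hW, hρp, hρac⟩
  have hc := continuous_dop_mul m hWP.ac
  have htb := (hK.image hc).totallyBounded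
  obtain ⟨t, htK, htf, htc⟩ := Metric.finite_approx_of_totallyBounded htb (ε / 3) (by positivity)
  have hft : Finite t := htf
  obtain ⟨B, hB, hBe⟩ := exists_almost_inv m hM
    (fun i : Option t => Option.elim i W (fun y => y.1))
    (fun i => by
      cases i with
      | none => exact hWP
      | some y =>
        obtain ⟨s, -, hs⟩ := htK y.2
        simp only [Option.elim]
        rw [← hs]
        exact hWP.dop_mul s) (ε := ε / 3) (by positivity)
  refine ⟨W * B, hWP.mul hB, fun s hs => ?_⟩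
  have h1 : dop s * W ∈ ⋃ y ∈ t, Metric.ball y (ε / 3) := htc ⟨s, hs, rfl⟩
  simp only [Set.mem_iUnion, Metric.mem_ball, exists_prop] at h1
  obtain ⟨y, hy, hyd⟩ := h1
  have h2 : ‖(y - 1) * B‖ ≤ ε / 3 := hBe (some ⟨y, hy⟩)
  have h3 : ‖(W - 1) * B‖ ≤ ε / 3 := hBe none
  rw [dist_eq_norm] at hyd
  have e : dop s * (W * B) - W * B = (dop s * W - y) * B + (y - 1) * B - (W - 1) * B := by
    noncomm_ring
  rw [e]
  have h4 : ‖(dop s * W - y) * B‖ ≤ ε / 3 :=
    (norm_mul_le _ _).trans ((mul_le_of_le_one_right (norm_nonneg _) hB.norm_le).trans hyd.le)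
  calc ‖(dop s * W - y) * B + (y - 1) * B - (W - 1) * B‖
      ≤ ‖(dop s * W - y) * B‖ + ‖(y - 1) * B‖ + ‖(W - 1) * B‖ :=
        (norm_sub_le _ _).trans (add_le_add (norm_add_le _ _) le_rfl)
    _ ≤ ε := by linarith

lemma norm_sq_toLp {m : Measure H} {F : H → ℂ} (hF : MemLp F 2 m) :
    ‖hF.toLp F‖ ^ 2 = ∫ x, ‖F x‖ ^ 2 ∂m := by
  have h1 : ‖hF.toLp F‖ ^ 2 = (⟪hF.toLp F, hF.toLp F⟫).re := by
    rw [inner_self_eq_norm_sq_to_K]
    norm_cast
  rw [h1, L2.inner_def]
  have h2 : ∫ x, ⟪(hF.toLp F) x, (hF.toLp F) x⟫ ∂m = ∫ x, ((‖F x‖ ^ 2 : ℝ) : ℂ) ∂m := by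
    refine integral_congr_ae ?_
    filter_upwards [hF.coeFn_toLp] with x hx
    rw [hx, inner_self_eq_norm_sq_to_K]
    norm_cast
  rw [h2, integral_complex_ofReal]
  exact Complex.ofReal_re _

lemma exists_unit_vector (m : Measure H) [m.IsHaarMeasure] {M : (H →ᵇ ℝ) →ₗ[ℝ] ℝ}
    (hM : IsLeftInvMean M) {K : Set H} (hK : IsCompact K) {ε : ℝ} (hε : 0 < ε) :
    ∃ f : Lp ℂ 2 m, ‖f‖ = 1 ∧ ∀ s ∈ K, ‖lreg m s f - f‖ ≤ ε := by
  obtain ⟨V, ⟨σ, hV, hσ, hσac⟩, hVe⟩ := exists_compact_inv m hM hK (ε := ε ^ 2) (by positivity)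
  set h := dens σ m with hdef
  have hh0 : ∀ x, 0 ≤ h x := fun x => dens_nonneg σ m x
  have hhm : Measurable h := measurable_dens σ m
  have hhi : Integrable h m := integrable_dens σ m
  have hhone : ∫ x, h x ∂m = 1 := by
    have := integral_dens σ m hσac (fun _ => (1 : ℝ))
    simpa using this
  let F : H → ℂ := fun x => ((Real.sqrt (h x) : ℝ) : ℂ)
  have hFm : Measurable F := Complex.measurable_ofReal.comp hhm.sqrt
  have hFsq : ∀ x, ‖F x‖ ^ 2 = h x := by
    intro x
    rw [Complex.norm_real, Real.norm_eq_abs, sq_abs, Real.sq_sqrt (hh0 x)]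
  have hF : MemLp F 2 m := by
    rw [memLp_two_iff_integrable_sq_norm hFm.aestronglyMeasurable]
    exact hhi.congr (Eventually.of_forall (fun x => (hFsq x).symm))
  refine ⟨hF.toLp F, ?_, fun s hs => ?_⟩
  · have h1 := norm_sq_toLp hF
    simp only [hFsq] at h1
    rw [hhone] at h1
    exact (pow_eq_one_iff_of_nonneg (norm_nonneg _) (by norm_num)).mp h1
  · have h1 := hVe s hs
    have hmp : MeasurePreserving (fun x => s⁻¹ • x) m m := measurePreserving_smul s⁻¹ m
    have hFs : MemLp (fun x => F (s⁻¹ • x)) 2 m := hF.comp_measurePreserving hmp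
    have e1 : lreg m s (hF.toLp F) = hFs.toLp _ := DomMulAct.mk_smul_toLp s⁻¹ hF
    rw [e1, ← MemLp.toLp_sub]
    refine abs_le_of_sq_le_sq' ?_ hε.le |>.2
    rw [norm_sq_toLp (hFs.sub hF)]
    have hsi : Integrable (fun x => h (s⁻¹ * x)) m := hhi.comp_mul_left s⁻¹
    have h2 : ∫ x, ‖((fun x => F (s⁻¹ • x)) - F) x‖ ^ 2 ∂m ≤ ∫ x, |h (s⁻¹ * x) - h x| ∂m := by
      refine integral_mono_of_nonneg (Eventually.of_forall (fun x => by positivity))
        (hsi.sub hhi).abs (Eventually.of_forall (fun x => ?_))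
      show ‖F (s⁻¹ * x) - F x‖ ^ 2 ≤ |h (s⁻¹ * x) - h x|
      have e2 : F (s⁻¹ * x) - F x
          = ((Real.sqrt (h (s⁻¹ * x)) - Real.sqrt (h x) : ℝ) : ℂ) := by
        simp [F]
      rw [e2, Complex.norm_real, Real.norm_eq_abs]
      set p := Real.sqrt (h (s⁻¹ * x)) with hp
      set q := Real.sqrt (h x) with hq
      have hp0 : 0 ≤ p := Real.sqrt_nonneg _
      have hq0 : 0 ≤ q := Real.sqrt_nonneg _
      have hp2 : h (s⁻¹ * x) = p ^ 2 := (Real.sq_sqrt (hh0 _)).symm
      have hq2 : h x = q ^ 2 := (Real.sq_sqrt (hh0 _)).symm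
      rw [hp2, hq2, show p ^ 2 - q ^ 2 = (p - q) * (p + q) by ring, abs_mul, sq]
      refine mul_le_mul_of_nonneg_left ?_ (abs_nonneg _)
      rw [abs_of_nonneg (add_nonneg hp0 hq0), abs_le]
      constructor <;> linarith
    refine h2.trans ?_
    classical
    have hms : MeasurableSet {x | h (s⁻¹ * x) < h x} :=
      measurableSet_lt (hhm.comp (measurable_const_mul s⁻¹)) hhm
    let g : Bd H := mkBM (fun x => if h (s⁻¹ * x) < h x then (-1 : ℝ) else 1)
      (Measurable.ite hms measurable_const measurable_const)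
      ⟨1, fun x => by split_ifs <;> simp⟩
    have hg : ‖g‖ ≤ 1 := norm_le_of zero_le_one (fun x => by
      rw [fn_mkBM]
      split_ifs <;> simp)
    have e3 : ∫ x, |h (s⁻¹ * x) - h x| ∂m
        = ∫ x, fn g x ∂(Measure.mconv (Measure.dirac s) σ) - ∫ x, fn g x ∂σ := by
      rw [integral_mconv (integrable_fn g _), integral_dirac' _ s
        (by
          have h1 : StronglyMeasurable (fun p : H × H => fn g (p.1 * p.2)) :=
            ((measurable_fn g).comp measurable_mul).stronglyMeasurable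
          exact h1.integral_prod_right)]
      rw [← integral_dens σ m hσac, ← integral_dens σ m hσac]
      have e4 : ∫ x, dens σ m x * fn g (s * x) ∂m = ∫ x, h (s⁻¹ * x) * fn g x ∂m := by
        have := integral_mul_left_eq_self (μ := m) (fun x => h (s⁻¹ * x) * fn g x) s
        rw [← this]
        simp [hdef]
      rw [e4, ← integral_sub (integrable_mul_fn hsi g) (integrable_mul_fn hhi g)]
      congr 1
      funext x
      rw [fn_mkBM, ← sub_mul]
      split_ifs with hlt
      · rw [abs_of_neg (by linarith)]; ring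
      · rw [abs_of_nonneg (by linarith)]; ring
    rw [e3]
    have hTT : Rep (dop s * V) (Measure.mconv (Measure.dirac s) σ) := (rep_dop s).mul hV
    calc ∫ x, fn g x ∂(Measure.mconv (Measure.dirac s) σ) - ∫ x, fn g x ∂σ
        ≤ |∫ x, fn g x ∂(Measure.mconv (Measure.dirac s) σ) - ∫ x, fn g x ∂σ| := le_abs_self _
      _ ≤ ‖dop s * V - V‖ * ‖g‖ := hTT.abs_integral_sub_le hV g
      _ ≤ ε ^ 2 * 1 := mul_le_mul h1 hg (norm_nonneg _) (by positivity)
      _ = ε ^ 2 := mul_one _

/-- On an amenable group `λ(μ)` has norm one for every probability measure `μ`. -/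
theorem norm_lop_eq_one (m : Measure H) [m.IsHaarMeasure] {M : (H →ᵇ ℝ) →ₗ[ℝ] ℝ}
    (hM : IsLeftInvMean M) (μ : Measure H) [IsProbabilityMeasure μ] : ‖lop m μ‖ = 1 := by
  refine le_antisymm (norm_lop_le μ) ?_
  refine le_of_forall_pos_le_add (fun ε hε => ?_)
  obtain ⟨K, -, hK, hKm⟩ := MeasurableSet.exists_isCompact_sdiff_lt (μ := μ)
    (MeasurableSet.univ (α := H)) (measure_ne_top μ _)
    (ε := ENNReal.ofReal (ε / 4)) (by simpa using (by positivity : (0 : ℝ) < ε / 4))
  obtain ⟨f, hf1, hfK⟩ := exists_unit_vector m hM hK (ε := ε / 4) (by positivity)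
  have h1 : ‖lop m μ f - f‖ ≤ ε := by
    have e : lop m μ f - f = ∫ s, (lreg m s f - f) ∂μ := by
      rw [integral_sub (integrable_lreg μ f) (integrable_const _), lop_apply]
      simp
    rw [e]
    have hKmeas : MeasurableSet K := hK.isClosed.measurableSet
    have hbd : ∀ s, ‖lreg m s f - f‖ ≤ ε / 4 + Kᶜ.indicator (fun _ => (2 : ℝ)) s := by
      intro s
      by_cases hs : s ∈ K
      · have := hfK s hs
        simp [hs, this]
      · have h2 : ‖lreg m s f - f‖ ≤ 2 := by
          refine (norm_sub_le _ _).trans ?_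
          rw [norm_lreg, hf1]
          norm_num
        have h3 : Kᶜ.indicator (fun _ => (2 : ℝ)) s = 2 := by simp [hs]
        rw [h3]
        linarith
    have hind : Integrable (fun s => ε / 4 + Kᶜ.indicator (fun _ => (2 : ℝ)) s) μ :=
      (integrable_const _).add ((integrable_const _).indicator hKmeas.compl)
    have h4 := norm_integral_le_of_norm_le hind (Eventually.of_forall hbd)
    refine h4.trans ?_
    rw [integral_add (integrable_const _) ((integrable_const _).indicator hKmeas.compl),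
      integral_indicator hKmeas.compl]
    have h5 : μ.real Kᶜ ≤ ε / 4 := by
      rw [measureReal_def]
      have h6 : μ Kᶜ ≤ ENNReal.ofReal (ε / 4) := by
        rw [Set.compl_eq_univ_sdiff]
        exact hKm.le
      exact ENNReal.toReal_le_of_le_ofReal (by positivity) h6
    simp only [integral_const, smul_eq_mul, measureReal_restrict_apply_univ, probReal_univ]
    linarith
  have h2 : ‖f‖ ≤ ‖lop m μ f‖ + ‖lop m μ f - f‖ := by
    have : f = lop m μ f - (lop m μ f - f) := by abel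
    calc ‖f‖ = ‖lop m μ f - (lop m μ f - f)‖ := by rw [← this]
      _ ≤ _ := norm_sub_le _ _
  have h3 : ‖lop m μ f‖ ≤ ‖lop m μ‖ := by
    have := (lop m μ).le_opNorm f
    rwa [hf1, mul_one] at this
  rw [hf1] at h2
  linarith

end Pool.Agent.Helper33.CS
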