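import Mathlib

/-!
Positive semidefinite kernels: limits, products, exponentials, Gram kernels, and functions of
positive type on a group.
-/

open Filter Topology
open scoped ComplexOrder InnerProductSpace

set_option linter.unusedSectionVars false

namespace Pool.Agent.Helper33.CS

section Kernel

variable {X : Type*}

lemma psd_limit {M : ℕ → Matrix X X ℂ} {N : Matrix X X ℂ} (h : ∀ n, (M n).PosSemidef)
    (hlim : ∀ x y, Tendsto (fun n => M n x y) atTop (𝓝 (N x y))) : N.PosSemidef := by
  refine ⟨?_, fun f => ?_⟩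
  · ext x y
    rw [Matrix.conjTranspose_apply]
    have h1 : Tendsto (fun n => star (M n y x)) atTop (𝓝 (star (N y x))) :=
      (continuous_star.tendsto _).comp (hlim y x)
    refine tendsto_nhds_unique h1 ((hlim x y).congr (fun n => ?_))
    have := congrFun (congrFun (h n).1 x) y
    rw [Matrix.conjTranspose_apply] at this
    exact this.symm
  · have h1 : Tendsto (fun n => f.sum fun i xi => f.sum fun j xj => star xi * M n i j * xj) atTop
        (𝓝 (f.sum fun i xi => f.sum fun j xj => star xi * N i j * xj)) := by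
      unfold Finsupp.sum
      refine tendsto_finsetSum _ (fun i _ => tendsto_finsetSum _ (fun j _ => ?_))
      exact ((hlim i j).const_mul _).mul_const _
    exact ge_of_tendsto' h1 (fun n => (h n).2 f)

lemma psd_one : (Matrix.of fun _ _ : X => (1 : ℂ)).PosSemidef := by
  refine ⟨?_, fun f => ?_⟩
  · ext x y
    simp [Matrix.conjTranspose_apply]
  · have e : (f.sum fun i xi => f.sum fun j xj => star xi * (Matrix.of fun _ _ : X => (1 : ℂ)) i j * xj)
        = star (f.sum fun _ xi => xi) * (f.sum fun _ xi => xi) := by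
      simp only [Matrix.of_apply, mul_one, Finsupp.sum, star_sum]
      rw [Finset.sum_mul_sum]
    rw [e]
    exact star_mul_self_nonneg _

lemma psd_gram {E : Type*} [NormedAddCommGroup E] [InnerProductSpace ℂ E] (g : X → E) :
    (Matrix.of fun x y : X => ⟪g x, g y⟫_ℂ).PosSemidef := by
  refine ⟨?_, fun f => ?_⟩
  · ext x y
    rw [Matrix.conjTranspose_apply, Matrix.of_apply, Matrix.of_apply]
    exact inner_conj_symm _ _
  · have e : (f.sum fun i xi => f.sum fun j xj =>
        star xi * (Matrix.of fun x y : X => ⟪g x, g y⟫_ℂ) i j * xj)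
        = ⟪f.sum fun i xi => xi • g i, f.sum fun j xj => xj • g j⟫_ℂ := by
      unfold Finsupp.sum
      rw [sum_inner]
      refine Finset.sum_congr rfl (fun i _ => ?_)
      rw [inner_sum]
      refine Finset.sum_congr rfl (fun j _ => ?_)
      rw [inner_smul_left, inner_smul_right]
      show star (f i) * ⟪g i, g j⟫_ℂ * f j = star (f i) * (f j * ⟪g i, g j⟫_ℂ)
      ring
    rw [e]
    rw [inner_self_eq_norm_sq_to_K]
    exact pow_nonneg (RCLike.ofReal_nonneg.mpr (norm_nonneg _)) 2

end Kernel

section Group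

variable {H : Type*} [Group H]

/-- Positive definite functions on a group: the kernel `(x, y) ↦ φ (x⁻¹ y)` is positive
semidefinite. -/
def PDf (φ : H → ℂ) : Prop := (Matrix.of fun x y : H => φ (x⁻¹ * y)).PosSemidef

lemma PDf.limit {φ : ℕ → H → ℂ} {χ : H → ℂ} (h : ∀ n, PDf (φ n))
    (hlim : ∀ x, Tendsto (fun n => φ n x) atTop (𝓝 (χ x))) : PDf χ :=
  psd_limit h (fun x y => hlim (x⁻¹ * y))

lemma PDf.one : PDf (fun _ : H => (1 : ℂ)) := psd_one

lemma PDf.mul {φ χ : H → ℂ} (h : PDf φ) (h' : PDf χ) : PDf (fun x => φ x * χ x) :=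
  Matrix.PosSemidef.hadamard h h'

lemma PDf.add {φ χ : H → ℂ} (h : PDf φ) (h' : PDf χ) : PDf (fun x => φ x + χ x) :=
  Matrix.PosSemidef.add h h'

lemma PDf.const_mul {φ : H → ℂ} (h : PDf φ) {a : ℝ} (ha : 0 ≤ a) :
    PDf (fun x => (a : ℂ) * φ x) := by
  have h1 := Matrix.PosSemidef.smul h (a := (a : ℂ)) (by exact_mod_cast ha)
  exact h1

lemma PDf.pow {φ : H → ℂ} (h : PDf φ) (n : ℕ) : PDf (fun x => φ x ^ n) := by
  induction n with
  | zero => simpa using PDf.one
  | succ n ih =>
    simp only [pow_succ]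
    exact ih.mul h

lemma PDf.zero : PDf (fun _ : H => (0 : ℂ)) := by
  have := (PDf.one (H := H)).const_mul (a := 0) le_rfl
  simpa using this

lemma PDf.sum {ι : Type*} (s : Finset ι) {φ : ι → H → ℂ} (h : ∀ i ∈ s, PDf (φ i)) :
    PDf (fun x => ∑ i ∈ s, φ i x) := by
  classical
  induction s using Finset.induction_on with
  | empty => simpa using PDf.zero
  | insert i s hi ih =>
    simp only [Finset.sum_insert hi]
    exact (h i (Finset.mem_insert_self _ _)).add
      (ih (fun j hj => h j (Finset.mem_insert_of_mem hj)))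

lemma PDf.prod {ι : Type*} (s : Finset ι) {φ : ι → H → ℂ} (h : ∀ i ∈ s, PDf (φ i)) :
    PDf (fun x => ∏ i ∈ s, φ i x) := by
  classical
  induction s using Finset.induction_on with
  | empty => simpa using PDf.one
  | insert i s hi ih =>
    simp only [Finset.prod_insert hi]
    exact (h i (Finset.mem_insert_self _ _)).mul
      (ih (fun j hj => h j (Finset.mem_insert_of_mem hj)))

lemma PDf.tsum {φ : ℕ → H → ℂ} (h : ∀ i, PDf (φ i)) (hs : ∀ x, Summable (fun i => φ i x)) :
    PDf (fun x => ∑' i, φ i x) :=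
  PDf.limit (fun n => PDf.sum (Finset.range n) (fun i _ => h i))
    (fun x => (hs x).hasSum.tendsto_sum_nat)

lemma hasSum_cexp (z : ℂ) : HasSum (fun n : ℕ => z ^ n / (n.factorial : ℂ)) (Complex.exp z) := by
  rw [Complex.exp_eq_exp_ℂ]
  exact NormedSpace.expSeries_div_hasSum_exp z

/-- `exp (a φ)` is positive definite. -/
lemma PDf.exp {φ : H → ℂ} (h : PDf φ) {a : ℝ} (ha : 0 ≤ a) :
    PDf (fun x => Complex.exp (a * φ x)) := by
  have e : (fun x => Complex.exp (a * φ x))
      = fun x => ∑' n : ℕ, ((a ^ n / (n.factorial : ℝ) : ℝ) : ℂ) * φ x ^ n := by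
    funext x
    rw [← (hasSum_cexp (a * φ x)).tsum_eq]
    congr 1
    funext n
    push_cast
    rw [mul_pow]
    ring
  rw [e]
  refine PDf.tsum (fun n => (h.pow n).const_mul (by positivity)) (fun x => ?_)
  refine (hasSum_cexp (a * φ x)).summable.congr (fun n => ?_)
  push_cast
  rw [mul_pow]
  ring

/-- `exp (- a (1 - φ))` is positive definite. -/
lemma PDf.exp_neg {φ : H → ℂ} (h : PDf φ) {a : ℝ} (ha : 0 ≤ a) :
    PDf (fun x => Complex.exp (-(a * (1 - φ x)))) := by
  have h1 := (h.exp ha).const_mul (Real.exp_pos (-a)).le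
  have e : (fun x => Complex.exp (-(a * (1 - φ x))))
      = fun x => ((Real.exp (-a) : ℝ) : ℂ) * Complex.exp (a * φ x) := by
    funext x
    rw [Complex.ofReal_exp, ← Complex.exp_add]
    congr 1
    push_cast
    ring
  rw [e]
  exact h1

lemma PDf.nonneg_one {φ : H → ℂ} (h : PDf φ) : 0 ≤ φ 1 := by
  have := h.2 (Finsupp.single 1 1)
  simpa using this

end Group

end Pool.Agent.Helper33.CS
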