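import Mathlib
import Pool.Agent.Lib_helper33.CS.PSD

/-!
Kolmogorov decomposition of a continuous function of positive type with countably many continuous
coordinates.
-/

open Filter Topology
open scoped ComplexOrder InnerProductSpace ComplexConjugate

set_option linter.unusedSectionVars false

namespace Pool.Agent.Helper33.CS

universe u

lemma exists_feature {X : Type u} {M : Matrix X X ℂ} (hM : M.PosSemidef) :
    ∃ (E : Type u) (_ : NormedAddCommGroup E) (_ : InnerProductSpace ℂ E) (_ : CompleteSpace E)
      (v : X → E), ∀ x y, ⟪v x, v y⟫_ℂ = M x y := by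
  let K : Matrix X X (ℂ →L[ℂ] ℂ) := Matrix.of fun x y => M x y • (1 : ℂ →L[ℂ] ℂ)
  have hK : K.PosSemidef := by
    have htfae : (K.IsHermitian ∧ ∀ (vv : X →₀ ℂ),
        0 ≤ RCLike.re (vv.sum fun x w ↦ vv.sum fun x' w' ↦ ⟪K x' x w, w'⟫_ℂ)) ↔ K.PosSemidef :=
      (RKHS.posSemidef_tfae (K := K)).out 2 0
    refine htfae.mp ⟨?_, fun f => ?_⟩
    · ext x y
      have h1 := congrFun (congrFun hM.1 x) y
      rw [Matrix.conjTranspose_apply] at h1
      simp only [Matrix.conjTranspose_apply, K, Matrix.of_apply, star_smul, star_one]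
      rw [h1]
    · have h2 := hM.2 f
      have h3 : (f.sum fun x w => f.sum fun x' w' => ⟪K x' x w, w'⟫_ℂ)
          = f.sum fun i xi => f.sum fun j xj => star xi * M i j * xj := by
        unfold Finsupp.sum
        refine Finset.sum_congr rfl (fun i _ => Finset.sum_congr rfl (fun j _ => ?_))
        have h1 := congrFun (congrFun hM.1 i) j
        rw [Matrix.conjTranspose_apply] at h1
        simp only [K, Matrix.of_apply]
        rw [← h1]
        simp [mul_comm, mul_left_comm]
      rw [h3]
      exact (Complex.le_def.mp h2).1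
  have hf : Fact K.PosSemidef := ⟨hK⟩
  refine ⟨RKHS.OfKernel K, inferInstance, inferInstance, inferInstance,
    fun x => RKHS.kerFun (RKHS.OfKernel K) x 1, fun x y => ?_⟩
  have h := RKHS.kernel_inner (H := RKHS.OfKernel K) y x (1 : ℂ) (1 : ℂ)
  rw [← h, RKHS.OfKernel.kernel_ofKernel]
  have h1 := congrFun (congrFun hM.1 x) y
  rw [Matrix.conjTranspose_apply] at h1
  simp only [K, Matrix.of_apply]
  rw [← h1]
  simp

lemma exists_coords {H : Type*} [TopologicalSpace H] [TopologicalSpace.SeparableSpace H]
    {E : Type*} [NormedAddCommGroup E] [InnerProductSpace ℂ E] [CompleteSpace E] (v : H → E)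
    (hv : Continuous v) : ∃ c : ℕ → H → ℂ, (∀ n, Continuous (c n)) ∧
      ∀ x y, HasSum (fun n => conj (c n x) * c n y) ⟪v x, v y⟫_ℂ := by
  classical
  obtain ⟨w, b, hb⟩ := exists_hilbertBasis ℂ E
  have hcont : ∀ i, Continuous (fun x => ⟪b i, v x⟫_ℂ) := fun i => continuous_const.inner hv
  let J : Set w := {i | ∃ x, ⟪b i, v x⟫_ℂ ≠ 0}
  have hJ : J.Countable := by
    rcases isEmpty_or_nonempty H with hH | hH
    · have : J = ∅ := by
        ext i
        simp only [J, Set.mem_ofPred_eq, Set.mem_empty_iff_false, iff_false]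
        rintro ⟨x, -⟩
        exact hH.elim x
      rw [this]
      exact Set.countable_empty
    · have hsub : J ⊆ ⋃ n, {i | ⟪b i, v (TopologicalSpace.denseSeq H n)⟫_ℂ ≠ 0} := by
        rintro i ⟨x, hx⟩
        by_contra hcon
        simp only [Set.mem_iUnion, Set.mem_ofPred_eq, not_exists, not_not] at hcon
        apply hx
        have h1 : IsClosed {x | ⟪b i, v x⟫_ℂ = 0} := isClosed_eq (hcont i) continuous_const
        have h2 : Set.range (TopologicalSpace.denseSeq H) ⊆ {x | ⟪b i, v x⟫_ℂ = 0} := by
          rintro _ ⟨n, rfl⟩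
          exact hcon n
        have h3 := h1.closure_subset_iff.mpr h2
        rw [(TopologicalSpace.denseRange_denseSeq H).closure_range] at h3
        exact h3 (Set.mem_univ x)
      refine Set.Countable.mono hsub (Set.countable_iUnion (fun n => ?_))
      have h4 := (b.hasSum_inner_mul_inner (v (TopologicalSpace.denseSeq H n))
        (v (TopologicalSpace.denseSeq H n))).summable
      refine Set.Countable.mono ?_ h4.countable_support
      intro i hi
      rw [Function.mem_support]
      refine mul_ne_zero ?_ hi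
      rw [← inner_conj_symm]
      exact (map_ne_zero _).mpr hi
  have hJc : Countable J := hJ
  obtain ⟨e, he⟩ := exists_injective_nat J
  let c : ℕ → H → ℂ := fun n x => Function.extend e (fun i : J => ⟪b i.1, v x⟫_ℂ) 0 n
  have hc1 : ∀ (i : J) (x : H), c (e i) x = ⟪b i.1, v x⟫_ℂ := fun i x => he.extend_apply _ _ _
  have hc0 : ∀ n, n ∉ Set.range e → ∀ x, c n x = 0 := fun n hn x =>
    Function.extend_apply' _ _ _ (by simpa using hn)
  refine ⟨c, fun n => ?_, fun x y => ?_⟩
  · by_cases hn : n ∈ Set.range e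
    · obtain ⟨i, rfl⟩ := hn
      exact (hcont i.1).congr (fun x => (hc1 i x).symm)
    · exact continuous_const.congr (fun x => (hc0 n hn x).symm)
  · have h1 := b.hasSum_inner_mul_inner (v x) (v y)
    have h2 : HasSum (fun i : J => ⟪v x, b i.1⟫_ℂ * ⟪b i.1, v y⟫_ℂ) ⟪v x, v y⟫_ℂ := by
      have hsup : Function.support (fun i : w => ⟪v x, b i⟫_ℂ * ⟪b i, v y⟫_ℂ) ⊆ J := by
        intro i hi
        rw [Function.mem_support] at hi
        exact ⟨y, (mul_ne_zero_iff.mp hi).2⟩
      exact (hasSum_subtype_iff_of_support_subset hsup).mpr h1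
    have h3 := (hasSum_extend_zero he).mpr h2
    refine h3.congr_fun (fun n => ?_)
    by_cases hn : n ∈ Set.range e
    · obtain ⟨i, rfl⟩ := hn
      rw [he.extend_apply, hc1, hc1, inner_conj_symm]
    · rw [Function.extend_apply' _ _ _ (by simpa using hn), hc0 n hn, hc0 n hn]
      simp

end Pool.Agent.Helper33.CS
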