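import Mathlib
import Pool.Agent.Lib_helper33.CS.AInv
import Pool.Agent.Lib_helper33.CS.Kolm

/-!
Fell absorption: a positive coefficient function of the regular representation times a continuous
positive definite function is a sum of positive coefficient functions of the regular
representation.
-/

open MeasureTheory Filter Topology
open scoped ENNReal NNReal ComplexInnerProductSpace ComplexConjugate ComplexOrder

set_option linter.unusedSectionVars false

namespace Pool.Agent.Helper33.CS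

variable {H : Type*} [TopologicalSpace H] [Group H] [IsTopologicalGroup H]
  [LocallyCompactSpace H] [SecondCountableTopology H] [T2Space H] [MeasurableSpace H]
  [BorelSpace H] {m : Measure H} [m.IsHaarMeasure]

lemma inner_toLp {F G : H → ℂ} (hF : MemLp F 2 m) (hG : MemLp G 2 m) :
    ⟪hF.toLp F, hG.toLp G⟫ = ∫ x, conj (F x) * G x ∂m := by
  rw [L2.inner_def]
  refine integral_congr_ae ?_
  filter_upwards [hF.coeFn_toLp, hG.coeFn_toLp] with x h1 h2
  rw [h1, h2, RCLike.inner_apply, mul_comm]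

lemma lreg_toLp (s : H) {F : H → ℂ} (hF : MemLp F 2 m) :
    lreg m s (hF.toLp F)
      = (hF.comp_measurePreserving (measurePreserving_smul s⁻¹ m)).toLp (fun x => F (s⁻¹ • x)) :=
  DomMulAct.mk_smul_toLp s⁻¹ hF

/-- The regular representation by linear isometries. -/
noncomputable def lregI (m : Measure H) [m.IsHaarMeasure] (s : H) : Lp ℂ 2 m →ₗᵢ[ℂ] Lp ℂ 2 m where
  toFun := lreg m s
  map_add' := lreg_add s
  map_smul' := lreg_smul s
  norm_map' := norm_lreg s

lemma inner_lreg_lreg (s : H) (f g : Lp ℂ 2 m) : ⟪lreg m s f, lreg m s g⟫ = ⟪f, g⟫ :=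
  (lregI m s).inner_map_map f g

lemma lreg_mul (s t : H) (f : Lp ℂ 2 m) : lreg m (s * t) f = lreg m s (lreg m t f) := by
  unfold lreg
  rw [mul_inv_rev, DomMulAct.mk_mul, mul_smul]

lemma lreg_one (f : Lp ℂ 2 m) : lreg m 1 f = f := by
  unfold lreg
  rw [inv_one, DomMulAct.mk_one, one_smul]

/-- The positive coefficient functions of the regular representation. -/
noncomputable def coef (m : Measure H) [m.IsHaarMeasure] (f : Lp ℂ 2 m) (s : H) : ℂ :=
  ⟪f, lreg m s f⟫

lemma coef_one (f : Lp ℂ 2 m) : coef m f 1 = ((‖f‖ ^ 2 : ℝ) : ℂ) := by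
  unfold coef
  rw [lreg_one, inner_self_eq_norm_sq_to_K]
  norm_cast

lemma norm_coef_le (f : Lp ℂ 2 m) (s : H) : ‖coef m f s‖ ≤ ‖f‖ ^ 2 := by
  unfold coef
  refine (norm_inner_le_norm _ _).trans (le_of_eq ?_)
  rw [norm_lreg, sq]

lemma continuous_coef (f : Lp ℂ 2 m) : Continuous (coef m f) :=
  continuous_const.inner (continuous_lreg f)

lemma pdf_coef (f : Lp ℂ 2 m) : PDf (coef m f) := by
  have h := psd_gram (fun x : H => lreg m x f)
  have e : (Matrix.of fun x y : H => coef m f (x⁻¹ * y))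
      = Matrix.of fun x y : H => ⟪lreg m x f, lreg m y f⟫ := by
    ext x y
    rw [Matrix.of_apply, Matrix.of_apply, coef, lreg_mul, ← inner_lreg_lreg x, ← lreg_mul,
      mul_inv_cancel, lreg_one]
  unfold PDf
  rw [e]
  exact h

/-- Sums of positive coefficient functions of the regular representation. -/
def PF (m : Measure H) [m.IsHaarMeasure] (u : H → ℂ) : Prop :=
  ∃ F : ℕ → Lp ℂ 2 m, Summable (fun n => ‖F n‖ ^ 2) ∧ ∀ s, HasSum (fun n => coef m (F n) s) (u s)

lemma PF.tsum {u : ℕ → H → ℂ} {U : H → ℂ} (hu : ∀ K, PF m (u K))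
    (hU : ∀ s, HasSum (fun K => u K s) (U s)) : PF m U := by
  choose F hF hFs using hu
  have h1 : ∀ K, HasSum (fun n => ‖F K n‖ ^ 2) (u K 1).re := by
    intro K
    have := Complex.hasSum_re (hFs K 1)
    simpa only [coef_one, Complex.ofReal_re] using this
  have h2 : Summable (fun p : ℕ × ℕ => ‖F p.1 p.2‖ ^ 2) := by
    rw [summable_prod_of_nonneg (fun p => by positivity)]
    refine ⟨fun K => hF K, ?_⟩
    have h3 : ∀ K, ∑' n, ‖F K n‖ ^ 2 = (u K 1).re := fun K => (h1 K).tsum_eq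
    simp only [h3]
    exact (Complex.hasSum_re (hU 1)).summable
  refine ⟨fun j => F (Nat.unpair j).1 (Nat.unpair j).2, ?_, fun s => ?_⟩
  · exact Nat.pairEquiv.symm.summable_iff.mpr h2
  · have h4 : Summable (fun p : ℕ × ℕ => coef m (F p.1 p.2) s) :=
      Summable.of_norm_bounded h2 (fun p => norm_coef_le _ s)
    have h5 := h4.hasSum
    have h6 := h5.prod_fiberwise (fun K => hFs K s)
    have h7 : ∑' p : ℕ × ℕ, coef m (F p.1 p.2) s = U s := h6.unique (hU s)
    rw [h7] at h5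
    exact (Nat.pairEquiv.symm.hasSum_iff (f := fun p : ℕ × ℕ => coef m (F p.1 p.2) s)).mpr h5

/-- Fell absorption. -/
theorem absorb (f : Lp ℂ 2 m) {ρ : H → ℂ} (hρc : Continuous ρ) (hρ : PDf ρ) :
    PF m (fun s => coef m f s * ρ s) := by
  -- the feature map
  have hM : (Matrix.of fun x y : H => ρ (x * y⁻¹)).PosSemidef := by
    have h := Matrix.PosSemidef.submatrix hρ (fun x : H => x⁻¹)
    have e : (Matrix.of fun x y : H => ρ (x⁻¹ * y)).submatrix (fun x : H => x⁻¹)
        (fun x : H => x⁻¹) = Matrix.of fun x y : H => ρ (x * y⁻¹) := by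
      ext x y
      simp
    rwa [e] at h
  obtain ⟨E, _, _, _, v, hv⟩ := exists_feature hM
  simp only [Matrix.of_apply] at hv
  have hvc : Continuous v := by
    rw [continuous_iff_continuousAt]
    intro y
    rw [ContinuousAt, tendsto_iff_norm_sub_tendsto_zero]
    have h1 : Tendsto (fun x => ‖v x - v y‖ ^ 2) (𝓝 y) (𝓝 0) := by
      have h2 : ∀ x, ‖v x - v y‖ ^ 2 = (ρ 1 - ρ (x * y⁻¹) - ρ (y * x⁻¹) + ρ 1).re := by
        intro x
        have h3 : ((‖v x - v y‖ ^ 2 : ℝ) : ℂ) = ⟪v x - v y, v x - v y⟫ := by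
          rw [inner_self_eq_norm_sq_to_K]
          norm_cast
        rw [inner_sub_left, inner_sub_right, inner_sub_right, hv, hv, hv, hv,
          mul_inv_cancel, mul_inv_cancel] at h3
        rw [← Complex.ofReal_re (‖v x - v y‖ ^ 2), h3]
        congr 1
        ring
      simp only [h2]
      have h4 : Tendsto (fun x => (ρ 1 - ρ (x * y⁻¹) - ρ (y * x⁻¹) + ρ 1).re) (𝓝 y)
          (𝓝 ((ρ 1 - ρ (y * y⁻¹) - ρ (y * y⁻¹) + ρ 1).re)) := by
        apply Continuous.tendsto
        fun_prop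
      simpa using h4
    have h5 := (Real.continuous_sqrt.tendsto 0).comp h1
    rw [Real.sqrt_zero] at h5
    refine h5.congr (fun x => ?_)
    exact Real.sqrt_sq (norm_nonneg _)
  obtain ⟨c, hcc, hc⟩ := exists_coords v hvc
  simp only [hv] at hc
  set R : ℝ := (ρ 1).re with hR
  have hsq : ∀ x, HasSum (fun n => ‖c n x‖ ^ 2) R := by
    intro x
    have h1 := Complex.hasSum_re (hc x x)
    rw [mul_inv_cancel] at h1
    refine h1.congr_fun (fun n => ?_)
    rw [mul_comm, Complex.mul_conj, Complex.ofReal_re, Complex.normSq_eq_norm_sq]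
  have hR0 : 0 ≤ R := (hsq 1).nonneg (fun n => by positivity)
  have hcR : ∀ n x, ‖c n x‖ ^ 2 ≤ R := fun n x => le_hasSum (hsq x) n (fun _ _ => by positivity)
  have hcR' : ∀ n x, ‖c n x‖ ≤ √R := fun n x => Real.le_sqrt_of_sq_le (hcR n x)
  -- a representative of `f`
  obtain ⟨g, hgL, hfg⟩ : ∃ (g : H → ℂ) (hgL : MemLp g 2 m), hgL.toLp g = f :=
    ⟨f, Lp.memLp f, Lp.toLp_coeFn f _⟩
  have hG : ∀ n, MemLp (fun x => g x * c n x) 2 m := by
    intro n
    refine hgL.of_le_mul (c := √R)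
      (hgL.aestronglyMeasurable.mul (hcc n).aestronglyMeasurable)
      (Eventually.of_forall (fun x => ?_))
    rw [norm_mul, mul_comm]
    exact mul_le_mul_of_nonneg_right (hcR' n x) (norm_nonneg _)
  have hgi : Integrable (fun x => ‖g x‖ ^ 2) m :=
    (memLp_two_iff_integrable_sq_norm hgL.aestronglyMeasurable).mp hgL
  have hGi : ∀ n, Integrable (fun x => ‖g x * c n x‖ ^ 2) m := fun n =>
    (memLp_two_iff_integrable_sq_norm (hG n).aestronglyMeasurable).mp (hG n)
  have hnorm : ∀ n, ‖(hG n).toLp _‖ ^ 2 = ∫ x, ‖g x * c n x‖ ^ 2 ∂m := fun n => norm_sq_toLp (hG n)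
  have hsumm : Summable (fun n => ‖(hG n).toLp _‖ ^ 2) := by
    refine summable_of_sum_range_le (c := ∫ x, ‖g x‖ ^ 2 * R ∂m) (fun n => by positivity)
      (fun N => ?_)
    simp only [hnorm]
    rw [← integral_finsetSum _ (fun n _ => hGi n)]
    refine integral_mono (integrable_finsetSum _ (fun n _ => hGi n)) (hgi.mul_const R)
      (fun x => ?_)
    show ∑ n ∈ Finset.range N, ‖g x * c n x‖ ^ 2 ≤ ‖g x‖ ^ 2 * R
    simp only [norm_mul, mul_pow]
    rw [← Finset.mul_sum]
    refine mul_le_mul_of_nonneg_left ?_ (by positivity)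
    exact sum_le_hasSum _ (fun _ _ => by positivity) (hsq x)
  refine ⟨fun n => (hG n).toLp _, hsumm, fun s => ?_⟩
  -- the sum
  have hmp : MeasurePreserving (fun x => s⁻¹ • x) m m := measurePreserving_smul s⁻¹ m
  have hgs : MemLp (fun x => g (s⁻¹ • x)) 2 m := hgL.comp_measurePreserving hmp
  have hGs : ∀ n, MemLp (fun x => g (s⁻¹ • x) * c n (s⁻¹ • x)) 2 m := fun n =>
    (hG n).comp_measurePreserving hmp
  have e1 : ∀ n, coef m ((hG n).toLp _) s
      = ∫ x, conj (g x * c n x) * (g (s⁻¹ • x) * c n (s⁻¹ • x)) ∂m := by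
    intro n
    unfold coef
    rw [lreg_toLp s (hG n), inner_toLp]
  have e2 : coef m f s = ∫ x, conj (g x) * g (s⁻¹ • x) ∂m := by
    unfold coef
    conv_lhs => rw [← hfg]
    rw [lreg_toLp s hgL, inner_toLp]
  have hint : ∀ n, Integrable
      (fun x => conj (g x * c n x) * (g (s⁻¹ • x) * c n (s⁻¹ • x))) m := by
    intro n
    have h1 : MemLp (fun x => conj (g x * c n x)) 2 m := (hG n).star
    exact h1.integrable_mul (hGs n)
  have hsn : ∀ n, ∫ x, ‖g (s⁻¹ • x) * c n (s⁻¹ • x)‖ ^ 2 ∂m = ‖(hG n).toLp _‖ ^ 2 := by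
    intro n
    rw [← norm_sq_toLp (hGs n), ← lreg_toLp s (hG n), norm_lreg]
  have hns : Summable (fun n => ∫ x, ‖conj (g x * c n x) * (g (s⁻¹ • x) * c n (s⁻¹ • x))‖ ∂m) := by
    refine Summable.of_nonneg_of_le (fun n => integral_nonneg (fun _ => norm_nonneg _))
      (fun n => ?_) hsumm
    have hGsi : Integrable (fun x => ‖g (s⁻¹ • x) * c n (s⁻¹ • x)‖ ^ 2) m :=
      (memLp_two_iff_integrable_sq_norm (hGs n).aestronglyMeasurable).mp (hGs n)
    calc ∫ x, ‖conj (g x * c n x) * (g (s⁻¹ • x) * c n (s⁻¹ • x))‖ ∂m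
        ≤ ∫ x, (1 / 2 * ‖g x * c n x‖ ^ 2 + 1 / 2 * ‖g (s⁻¹ • x) * c n (s⁻¹ • x)‖ ^ 2) ∂m := by
          refine integral_mono (hint n).norm (((hGi n).const_mul _).add (hGsi.const_mul _))
            (fun x => ?_)
          show ‖conj (g x * c n x) * (g (s⁻¹ • x) * c n (s⁻¹ • x))‖ ≤ _
          rw [norm_mul, RCLike.norm_conj]
          nlinarith [sq_nonneg (‖g x * c n x‖ - ‖g (s⁻¹ • x) * c n (s⁻¹ • x)‖)]
      _ = ‖(hG n).toLp _‖ ^ 2 := by
          rw [integral_add ((hGi n).const_mul _) (hGsi.const_mul _), integral_const_mul,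
            integral_const_mul, ← hnorm, hsn]
          ring
  have h3 := hasSum_integral_of_summable_integral_norm hint hns
  have h4 : ∫ x, ∑' n, conj (g x * c n x) * (g (s⁻¹ • x) * c n (s⁻¹ • x)) ∂m
      = coef m f s * ρ s := by
    rw [e2, ← integral_mul_const]
    congr 1
    funext x
    have h5 := hc x (s⁻¹ • x)
    have e3 : x * (s⁻¹ • x)⁻¹ = s := by
      rw [smul_eq_mul, mul_inv_rev, inv_inv, mul_inv_cancel_left]
    rw [e3] at h5
    have h6 := h5.mul_left (conj (g x) * g (s⁻¹ • x))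
    rw [← h6.tsum_eq]
    congr 1
    funext n
    rw [map_mul]
    ring
  rw [h4] at h3
  simp only [e1]
  exact h3

end Pool.Agent.Helper33.CS
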