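import Mathlib
import Pool.Agent.Lib_helper33.CS.Absorb

/-!
Sums `ψ = sum c n (1 - w n)` of normalised positive definite functions, the functions
`exp (- t ψ)`, and their membership in the Fourier algebra.
-/

open MeasureTheory Filter Topology
open scoped ENNReal NNReal ComplexInnerProductSpace ComplexConjugate ComplexOrder

set_option linter.unusedSectionVars false

namespace Pool.Agent.Helper33.CS

section Adm

variable {H : Type*} [TopologicalSpace H] [Group H]

/-- Admissible sequences. -/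
structure Adm (w : ℕ → H → ℂ) (c : ℕ → ℝ) : Prop where
  pd : ∀ n, PDf (w n)
  cont : ∀ n, Continuous (w n)
  one : ∀ n, w n 1 = 1
  le : ∀ n s, ‖w n s‖ ≤ 1
  nn : ∀ n, 0 ≤ c n
  loc : ∀ x : H, ∃ V ∈ 𝓝 x, ∃ b : ℕ → ℝ, Summable b ∧ ∀ n, ∀ s ∈ V, c n * ‖1 - w n s‖ ≤ b n

/-- The exponent. -/
noncomputable def psi (w : ℕ → H → ℂ) (c : ℕ → ℝ) (s : H) : ℂ := ∑' n, (c n : ℂ) * (1 - w n s)

variable {w : ℕ → H → ℂ} {c : ℕ → ℝ}

lemma Adm.norm_term (h : Adm w c) (n : ℕ) (s : H) :
    ‖(c n : ℂ) * (1 - w n s)‖ = c n * ‖1 - w n s‖ := by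
  rw [norm_mul, Complex.norm_real, Real.norm_eq_abs, abs_of_nonneg (h.nn n)]

lemma Adm.summable (h : Adm w c) (s : H) : Summable (fun n => (c n : ℂ) * (1 - w n s)) := by
  obtain ⟨V, hV, b, hb, hbV⟩ := h.loc s
  refine Summable.of_norm_bounded hb (fun n => ?_)
  rw [h.norm_term]
  exact hbV n s (mem_of_mem_nhds hV)

lemma Adm.continuous_psi (h : Adm w c) : Continuous (psi w c) := by
  rw [continuous_iff_continuousAt]
  intro x
  obtain ⟨V, hV, b, hb, hbV⟩ := h.loc x
  refine ContinuousOn.continuousAt (s := V) ?_ hV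
  refine continuousOn_tsum (fun n => ?_) hb (fun n s hs => ?_)
  · exact (continuous_const.mul (continuous_const.sub (h.cont n))).continuousOn
  · rw [h.norm_term]
    exact hbV n s hs

lemma Adm.psi_one (h : Adm w c) : psi w c 1 = 0 := by
  unfold psi
  simp [h.one]

lemma Adm.re_term_nonneg (h : Adm w c) (n : ℕ) (s : H) : 0 ≤ ((c n : ℂ) * (1 - w n s)).re := by
  rw [Complex.re_ofReal_mul, Complex.sub_re, Complex.one_re]
  have h1 := (Complex.abs_re_le_norm (w n s)).trans (h.le n s)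
  exact mul_nonneg (h.nn n) (by linarith [le_abs_self (w n s).re])

lemma Adm.re_ge (h : Adm w c) (n : ℕ) (s : H) : c n * (1 - (w n s).re) ≤ (psi w c s).re := by
  have h1 := Complex.hasSum_re (h.summable s).hasSum
  have h2 := le_hasSum h1 n (fun j _ => h.re_term_nonneg j s)
  have e : c n * (1 - (w n s).re) = ((c n : ℂ) * (1 - w n s)).re := by
    rw [Complex.re_ofReal_mul, Complex.sub_re, Complex.one_re]
  rw [e]
  exact h2

lemma Adm.re_nonneg (h : Adm w c) (s : H) : 0 ≤ (psi w c s).re := by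
  have h1 := Complex.hasSum_re (h.summable s).hasSum
  exact h1.nonneg (fun j => h.re_term_nonneg j s)

lemma Adm.shift (h : Adm w c) (k : ℕ) : Adm (fun n => w (n + k)) (fun n => c (n + k)) where
  pd n := h.pd _
  cont n := h.cont _
  one n := h.one _
  le n s := h.le _ s
  nn n := h.nn _
  loc x := by
    obtain ⟨V, hV, b, hb, hbV⟩ := h.loc x
    exact ⟨V, hV, fun n => b (n + k), (summable_nat_add_iff k).mpr hb,
      fun n s hs => hbV (n + k) s hs⟩

lemma Adm.psi_succ (h : Adm w c) (k : ℕ) (s : H) :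
    psi (fun n => w (n + k)) (fun n => c (n + k)) s
      = (c k : ℂ) * (1 - w k s)
        + psi (fun n => w (n + (k + 1))) (fun n => c (n + (k + 1))) s := by
  have h1 := ((h.shift k).summable s).tsum_eq_zero_add
  unfold psi
  rw [h1]
  simp only [zero_add]
  congr 1
  congr 1
  funext n
  rw [show n + 1 + k = n + (k + 1) by omega]

lemma Adm.pdf (h : Adm w c) {t : ℝ} (ht : 0 ≤ t) :
    PDf (fun s => Complex.exp (-(t * psi w c s))) := by
  refine PDf.limit (φ := fun N s => ∏ n ∈ Finset.range N,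
    Complex.exp (-(((t * c n : ℝ) : ℂ) * (1 - w n s))))
    (fun N => PDf.prod _ (fun n _ => (h.pd n).exp_neg (mul_nonneg ht (h.nn n)))) (fun s => ?_)
  have h1 := (h.summable s).hasSum.tendsto_sum_nat
  have h2 : Tendsto (fun N => Complex.exp (-(t * ∑ n ∈ Finset.range N, (c n : ℂ) * (1 - w n s))))
      atTop (𝓝 (Complex.exp (-(t * psi w c s)))) :=
    (Complex.continuous_exp.tendsto _).comp ((h1.const_mul (t : ℂ)).neg)
  refine h2.congr (fun N => ?_)
  rw [← Complex.exp_sum]
  congr 1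
  rw [Finset.mul_sum, ← Finset.sum_neg_distrib]
  refine Finset.sum_congr rfl (fun n _ => ?_)
  push_cast
  ring

lemma Adm.norm_exp_le (h : Adm w c) {t : ℝ} (ht : 0 ≤ t) (s : H) :
    ‖Complex.exp (-(t * psi w c s))‖ ≤ 1 := by
  rw [Complex.norm_exp, Complex.neg_re, Complex.re_ofReal_mul]
  apply Real.exp_le_one_iff.mpr
  have := mul_nonneg ht (h.re_nonneg s)
  linarith

lemma Adm.continuous_exp (h : Adm w c) (t : ℝ) :
    Continuous (fun s => Complex.exp (-(t * psi w c s))) :=
  Complex.continuous_exp.comp ((continuous_const.mul h.continuous_psi).neg)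

end Adm

section Theta

/-- The function `(exp (t z) - 1) / z`. -/
noncomputable def th (t : ℝ) (z : ℂ) : ℂ := ∑' j : ℕ, ((t ^ (j + 1) / ((j + 1).factorial : ℝ) : ℝ) : ℂ) * z ^ j

lemma hasSum_th_one (t : ℝ) :
    HasSum (fun j : ℕ => t ^ (j + 1) / ((j + 1).factorial : ℝ)) (Real.exp t - 1) := by
  have h1 : HasSum (fun n : ℕ => t ^ n / (n.factorial : ℝ)) (Real.exp t) := by
    rw [Real.exp_eq_exp_ℝ]
    exact NormedSpace.expSeries_div_hasSum_exp t
  have h2 := (hasSum_nat_add_iff' (f := fun n : ℕ => t ^ n / (n.factorial : ℝ)) 1).mpr h1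
  simpa using h2

lemma norm_th_term {t : ℝ} (ht : 0 ≤ t) {z : ℂ} (hz : ‖z‖ ≤ 1) (j : ℕ) :
    ‖((t ^ (j + 1) / ((j + 1).factorial : ℝ) : ℝ) : ℂ) * z ^ j‖
      ≤ t ^ (j + 1) / ((j + 1).factorial : ℝ) := by
  rw [norm_mul, Complex.norm_real, Real.norm_eq_abs, abs_of_nonneg (by positivity), norm_pow]
  exact mul_le_of_le_one_right (by positivity) (pow_le_one₀ (norm_nonneg _) hz)

lemma norm_th_le {t : ℝ} (ht : 0 ≤ t) {z : ℂ} (hz : ‖z‖ ≤ 1) : ‖th t z‖ ≤ Real.exp t - 1 :=
  tsum_of_norm_bounded (hasSum_th_one t) (fun j => norm_th_term ht hz j)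

lemma summable_th {t : ℝ} (ht : 0 ≤ t) {z : ℂ} (hz : ‖z‖ ≤ 1) :
    Summable (fun j : ℕ => ((t ^ (j + 1) / ((j + 1).factorial : ℝ) : ℝ) : ℂ) * z ^ j) :=
  Summable.of_norm_bounded (hasSum_th_one t).summable (fun j => norm_th_term ht hz j)

lemma mul_th {t : ℝ} (ht : 0 ≤ t) {z : ℂ} (hz : ‖z‖ ≤ 1) :
    z * th t z = Complex.exp (t * z) - 1 := by
  have h1 := (summable_th ht hz).hasSum.mul_left z
  have h2 := (hasSum_nat_add_iff' (f := fun n : ℕ => ((t : ℂ) * z) ^ n / (n.factorial : ℂ)) 1).mpr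
    (hasSum_cexp (t * z))
  have h3 : HasSum (fun j : ℕ => ((t : ℂ) * z) ^ (j + 1) / ((j + 1).factorial : ℂ))
      (Complex.exp (t * z) - 1) := by simpa using h2
  refine h1.unique (h3.congr_fun (fun j => ?_))
  push_cast
  rw [mul_pow, pow_succ z]
  ring

variable {H : Type*} [TopologicalSpace H] [Group H]

lemma pdf_th {u : H → ℂ} (hu : PDf u) (hu1 : ∀ s, ‖u s‖ ≤ 1) {t : ℝ} (ht : 0 ≤ t) :
    PDf (fun s => th t (u s)) :=
  PDf.tsum (fun j => (hu.pow j).const_mul (by positivity)) (fun s => summable_th ht (hu1 s))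

lemma continuous_th {u : H → ℂ} (hu : Continuous u) (hu1 : ∀ s, ‖u s‖ ≤ 1) {t : ℝ} (ht : 0 ≤ t) :
    Continuous (fun s => th t (u s)) :=
  continuous_tsum (fun j => continuous_const.mul (hu.pow j)) (hasSum_th_one t).summable
    (fun j s => norm_th_term ht (hu1 s) j)

end Theta

section Main

variable {H : Type*} [TopologicalSpace H] [Group H] [IsTopologicalGroup H]
  [LocallyCompactSpace H] [SecondCountableTopology H] [T2Space H] [MeasurableSpace H]
  [BorelSpace H] {m : Measure H} [m.IsHaarMeasure]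

theorem pf_exp {f : ℕ → Lp ℂ 2 m} (h : Adm (fun n => coef m (f n)) (fun _ => 1)) {χ : H → ℂ}
    (hχ : PDf χ) (hχc : Continuous χ) (hχ1 : ∀ s, ‖χ s‖ ≤ 1) {t : ℝ} (ht : 0 < t) :
    PF m (fun s => Complex.exp (-(t * psi (fun n => coef m (f n)) (fun _ => 1) s)) * χ s) := by
  let ps : ℕ → H → ℂ := fun k => psi (fun n => coef m (f (n + k))) (fun _ => 1)
  have hps : ∀ k, Adm (fun n => coef m (f (n + k))) (fun _ => (1 : ℝ)) := fun k => h.shift k
  let κ : ℕ → H → ℂ := fun K s => ((Real.exp (-(t * (K + 1))) : ℝ) : ℂ)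
    * (th t (coef m (f K) s) * Complex.exp (-(t * ps (K + 1) s)))
  let T : ℕ → H → ℂ := fun K s => ((Real.exp (-(t * K)) : ℝ) : ℂ) * Complex.exp (-(t * ps K s))
  have hle : ∀ K s, ‖coef m (f K) s‖ ≤ 1 := fun K s => h.le K s
  have hκpd : ∀ K, PDf (κ K) := fun K =>
    ((pdf_th (h.pd K) (hle K) ht.le).mul ((hps (K + 1)).pdf ht.le)).const_mul (Real.exp_pos _).le
  have hκc : ∀ K, Continuous (κ K) := fun K =>
    continuous_const.mul ((continuous_th (h.cont K) (hle K) ht.le).mul
      ((hps (K + 1)).continuous_exp t))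
  have hκn : ∀ K s, ‖κ K s‖ ≤ Real.exp (-(t * (K + 1))) * (Real.exp t - 1) := by
    intro K s
    simp only [κ]
    rw [norm_mul, Complex.norm_real, Real.norm_eq_abs, abs_of_pos (Real.exp_pos _), norm_mul]
    refine mul_le_mul_of_nonneg_left ?_ (Real.exp_pos _).le
    calc ‖th t (coef m (f K) s)‖ * ‖Complex.exp (-(t * ps (K + 1) s))‖
        ≤ (Real.exp t - 1) * 1 := by
          refine mul_le_mul (norm_th_le ht.le (hle K s)) ((hps (K + 1)).norm_exp_le ht.le s)
            (norm_nonneg _) ?_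
          have := Real.one_le_exp ht.le
          linarith
      _ = _ := mul_one _
  have hstep : ∀ K s, coef m (f K) s * κ K s = T K s - T (K + 1) s := by
    intro K s
    have h1 : ps K s = (1 - coef m (f K) s) + ps (K + 1) s := by
      have := h.psi_succ K s
      simpa using this
    have h2 := mul_th ht.le (hle K s)
    simp only [κ, T]
    have e1 : coef m (f K) s * (((Real.exp (-(t * (K + 1))) : ℝ) : ℂ)
        * (th t (coef m (f K) s) * Complex.exp (-(t * ps (K + 1) s))))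
        = ((Real.exp (-(t * (K + 1))) : ℝ) : ℂ) * (coef m (f K) s * th t (coef m (f K) s))
          * Complex.exp (-(t * ps (K + 1) s)) := by ring
    rw [e1, h2, h1]
    have e2 : Complex.exp (-(t * (1 - coef m (f K) s + ps (K + 1) s)))
        = Complex.exp (-t) * Complex.exp (t * coef m (f K) s)
          * Complex.exp (-(t * ps (K + 1) s)) := by
      rw [← Complex.exp_add, ← Complex.exp_add]
      congr 1
      ring
    rw [e2]
    have e3 : ((Real.exp (-(t * (K + 1))) : ℝ) : ℂ)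
        = ((Real.exp (-(t * K)) : ℝ) : ℂ) * Complex.exp (-t) := by
      rw [Complex.ofReal_exp, Complex.ofReal_exp, ← Complex.exp_add]
      congr 1
      push_cast
      ring
    have e4 : ((Real.exp (-(t * ((K + 1 : ℕ) : ℝ))) : ℝ) : ℂ)
        = ((Real.exp (-(t * K)) : ℝ) : ℂ) * Complex.exp (-t) := by
      rw [← e3]
      push_cast
      rfl
    rw [e3, e4]
    ring
  have hT0 : ∀ s, T 0 s = Complex.exp (-(t * psi (fun n => coef m (f n)) (fun _ => 1) s)) := by
    intro s
    simp only [T, ps]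
    simp
  have hTn : ∀ K s, ‖T K s‖ ≤ Real.exp (-(t * K)) := by
    intro K s
    simp only [T]
    rw [norm_mul, Complex.norm_real, Real.norm_eq_abs, abs_of_pos (Real.exp_pos _)]
    exact mul_le_of_le_one_right (Real.exp_pos _).le ((hps K).norm_exp_le ht.le s)
  have hTlim : ∀ s, Tendsto (fun K => T K s) atTop (𝓝 0) := by
    intro s
    refine squeeze_zero_norm (fun K => hTn K s) ?_
    have h5 : Tendsto (fun K : ℕ => t * (K : ℝ)) atTop atTop :=
      tendsto_natCast_atTop_atTop.const_mul_atTop ht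
    exact Real.tendsto_exp_neg_atTop_nhds_zero.comp h5
  refine PF.tsum (u := fun K s => coef m (f K) s * (κ K s * χ s))
    (fun K => absorb (f K) ((hκc K).mul hχc) ((hκpd K).mul hχ)) (fun s => ?_)
  have hgeo : Summable (fun K : ℕ => Real.exp (-(t * (K + 1))) * (Real.exp t - 1)) := by
    refine Summable.mul_right _ ?_
    have : ∀ K : ℕ, Real.exp (-(t * (K + 1))) = Real.exp (-t) * (Real.exp (-t)) ^ K := by
      intro K
      rw [← Real.exp_nat_mul, ← Real.exp_add]
      congr 1
      ring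
    simp only [this]
    exact (summable_geometric_of_lt_one (Real.exp_pos _).le
      (Real.exp_lt_one_iff.mpr (by linarith))).mul_left _
  have hsum : Summable (fun K => coef m (f K) s * (κ K s * χ s)) := by
    refine Summable.of_norm_bounded hgeo (fun K => ?_)
    rw [norm_mul, norm_mul]
    calc ‖coef m (f K) s‖ * (‖κ K s‖ * ‖χ s‖) ≤ 1 * (‖κ K s‖ * 1) := by
          refine mul_le_mul (hle K s) ?_ (by positivity) zero_le_one
          exact mul_le_mul_of_nonneg_left (hχ1 s) (norm_nonneg _)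
      _ = ‖κ K s‖ := by ring
      _ ≤ _ := hκn K s
  have hpart : ∀ N, ∑ K ∈ Finset.range N, coef m (f K) s * (κ K s * χ s)
      = (T 0 s - T N s) * χ s := by
    intro N
    have : ∀ K, coef m (f K) s * (κ K s * χ s) = (T K s - T (K + 1) s) * χ s := by
      intro K
      rw [← mul_assoc, hstep]
    simp only [this]
    rw [← Finset.sum_mul, Finset.sum_range_sub' (fun K => T K s)]
  have h1 := hsum.hasSum.tendsto_sum_nat
  have h2 : Tendsto (fun N => ∑ K ∈ Finset.range N, coef m (f K) s * (κ K s * χ s)) atTop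
      (𝓝 ((T 0 s - 0) * χ s)) := by
    simp only [hpart]
    exact (tendsto_const_nhds.sub (hTlim s)).mul_const _
  have h3 := tendsto_nhds_unique h1 h2
  have h4 := hsum.hasSum
  rw [h3, sub_zero, hT0] at h4
  exact h4

end Main

end Pool.Agent.Helper33.CS
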