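import Mathlib
import Pool.Agent.Lib_helper33.CS.Psi

/-!
Convolution semigroups on the dual of an amenable group.
-/

open MeasureTheory Filter Topology
open scoped ENNReal NNReal BoundedContinuousFunction ComplexInnerProductSpace ComplexConjugate
  ComplexOrder Pointwise

set_option linter.unusedSectionVars false

namespace Pool.Agent.Helper33.CS

variable {H : Type*} [TopologicalSpace H] [Group H] [IsTopologicalGroup H]
  [LocallyCompactSpace H] [SecondCountableTopology H] [T2Space H] [MeasurableSpace H]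
  [BorelSpace H] {m : Measure H} [m.IsHaarMeasure]

lemma norm_one_sub_coef_le {f : Lp ℂ 2 m} (hf : ‖f‖ = 1) (s : H) :
    ‖1 - coef m f s‖ ≤ ‖lreg m s f - f‖ := by
  have h1 : (1 : ℂ) - coef m f s = ⟪f, f - lreg m s f⟫ := by
    rw [inner_sub_right, coef, inner_self_eq_norm_sq_to_K, hf]
    simp
  rw [h1]
  refine (norm_inner_le_norm _ _).trans ?_
  rw [hf, one_mul, norm_sub_rev]

lemma coef_one' {f : Lp ℂ 2 m} (hf : ‖f‖ = 1) : coef m f 1 = 1 := by
  rw [coef_one, hf]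
  simp

lemma norm_coef_le' {f : Lp ℂ 2 m} (hf : ‖f‖ = 1) (s : H) : ‖coef m f s‖ ≤ 1 := by
  refine (norm_coef_le f s).trans (le_of_eq ?_)
  rw [hf]
  norm_num

lemma norm_one_sub_coef_le' {f : Lp ℂ 2 m} (hf : ‖f‖ = 1) (s : H) :
    ‖1 - coef m f s‖ ≤ 2 := by
  refine (norm_sub_le _ _).trans ?_
  rw [norm_one]
  linarith [norm_coef_le' hf s]

lemma exists_adm_u (m : Measure H) [m.IsHaarMeasure] {M : (H →ᵇ ℝ) →ₗ[ℝ] ℝ}
    (hM : IsLeftInvMean M) :
    ∃ f : ℕ → Lp ℂ 2 m, Adm (fun n => coef m (f n)) (fun _ => 1) := by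
  let K : CompactExhaustion H := CompactExhaustion.choice H
  have h0 : ∀ n : ℕ, ∃ f : Lp ℂ 2 m, ‖f‖ = 1 ∧ ∀ s ∈ K n, ‖lreg m s f - f‖ ≤ (1 / 2) ^ n :=
    fun n => exists_unit_vector m hM (K.isCompact n) (by positivity)
  choose f hf1 hf using h0
  refine ⟨f, ⟨fun n => pdf_coef _, fun n => continuous_coef _, fun n => coef_one' (hf1 n),
    fun n s => norm_coef_le' (hf1 n) s, fun _ => zero_le_one, fun x => ?_⟩⟩
  obtain ⟨N, hN⟩ := K.exists_mem_nhds x
  refine ⟨K N, hN, fun n => 2 * 2 ^ N * (1 / 2) ^ n, ?_, fun n s hs => ?_⟩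
  · exact (summable_geometric_of_lt_one (by norm_num) (by norm_num)).mul_left _
  · rw [one_mul]
    show ‖1 - coef m (f n) s‖ ≤ 2 * 2 ^ N * (1 / 2) ^ n
    have h2N : (1 : ℝ) ≤ 2 ^ N := one_le_pow₀ (by norm_num)
    rcases le_or_gt N n with h | h
    · refine ((norm_one_sub_coef_le (hf1 n) s).trans (hf n s (K.subset h hs))).trans ?_
      have : (0 : ℝ) ≤ (1 / 2) ^ n := by positivity
      nlinarith
    · refine (norm_one_sub_coef_le' (hf1 n) s).trans ?_
      have e : (2 : ℝ) ^ N * (1 / 2) ^ n = 2 ^ (N - n) := by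
        rw [← Nat.sub_add_cancel h.le, pow_add]
        simp only [Nat.add_sub_cancel]
        rw [mul_assoc, ← mul_pow]
        norm_num
      have h3 : (1 : ℝ) ≤ 2 ^ (N - n) := one_le_pow₀ (by norm_num)
      rw [mul_assoc, e]
      linarith

lemma exists_small_vector (m : Measure H) [m.IsHaarMeasure] {U : Set H} (hU : U ∈ 𝓝 (1 : H)) :
    ∃ f : Lp ℂ 2 m, ‖f‖ = 1 ∧ ∀ s, s ∉ U → coef m f s = 0 := by
  obtain ⟨V, hV, hVU⟩ := exists_nhds_split_inv hU
  obtain ⟨C, hC, hC1⟩ := exists_compact_mem_nhds (1 : H)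
  have hW1 : (1 : H) ∈ interior (V ∩ C) := mem_interior_iff_mem_nhds.mpr (inter_mem hV hC1)
  set W := interior (V ∩ C) with hW
  have hWo : IsOpen W := isOpen_interior
  have hWfin : m W < ∞ := lt_of_le_of_lt (measure_mono (interior_subset.trans
    Set.inter_subset_right)) hC.measure_lt_top
  have hWpos : 0 < m W := hWo.measure_pos m ⟨1, hW1⟩
  have hF : MemLp (W.indicator (fun _ => (1 : ℂ))) 2 m :=
    memLp_indicator_const 2 hWo.measurableSet 1 (Or.inr hWfin.ne)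
  set g : Lp ℂ 2 m := hF.toLp _ with hg
  have hg2 : ‖g‖ ^ 2 = m.real W := by
    rw [hg, norm_sq_toLp hF]
    have : (fun x => ‖W.indicator (fun _ => (1 : ℂ)) x‖ ^ 2) = W.indicator (fun _ => (1 : ℝ)) := by
      funext x
      by_cases hx : x ∈ W <;> simp [hx]
    rw [this, integral_indicator_const _ hWo.measurableSet, smul_eq_mul, mul_one]
  have hmr : 0 < m.real W := ENNReal.toReal_pos hWpos.ne' hWfin.ne
  have hg0 : ‖g‖ ≠ 0 := by
    intro h
    rw [h] at hg2
    norm_num at hg2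
    linarith
  refine ⟨((‖g‖⁻¹ : ℝ) : ℂ) • g, ?_, fun s hs => ?_⟩
  · rw [norm_smul, Complex.norm_real, norm_inv, norm_norm, inv_mul_cancel₀ hg0]
  · unfold coef
    rw [lreg_smul, inner_smul_left, inner_smul_right]
    have h1 : ⟪g, lreg m s g⟫ = 0 := by
      have h2 : ⟪g, lreg m s g⟫ = ∫ x, conj (W.indicator (fun _ => (1 : ℂ)) x)
          * W.indicator (fun _ => (1 : ℂ)) (s⁻¹ • x) ∂m := by
        rw [hg, lreg_toLp s hF, inner_toLp]
      rw [h2]
      have h3 : (fun x => conj (W.indicator (fun _ => (1 : ℂ)) x)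
          * W.indicator (fun _ => (1 : ℂ)) (s⁻¹ • x)) = fun _ => (0 : ℂ) := by
        funext x
        by_cases hx : x ∈ W
        · by_cases hx' : s⁻¹ • x ∈ W
          · exfalso
            refine hs ?_
            have h4 := hVU x (interior_subset hx).1 (s⁻¹ • x) (interior_subset hx').1
            rw [smul_eq_mul, div_eq_mul_inv, mul_inv_rev, inv_inv, mul_inv_cancel_left] at h4
            exact h4
          · rw [Set.indicator_of_notMem hx', mul_zero]
        · rw [Set.indicator_of_notMem hx, map_zero, zero_mul]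
      rw [h3]
      simp
    rw [h1]
    simp

lemma exists_adm_v (m : Measure H) [m.IsHaarMeasure] :
    ∃ w : ℕ → H → ℂ, Adm w (fun n => (1 / 2) ^ n) ∧
      ∀ U ∈ 𝓝 (1 : H), ∃ n, ∀ s, s ∉ U → w n s = 0 := by
  obtain ⟨B, hB⟩ := (𝓝 (1 : H)).exists_antitone_basis
  have h0 : ∀ n : ℕ, ∃ f : Lp ℂ 2 m, ‖f‖ = 1 ∧ ∀ s, s ∉ B n → coef m f s = 0 :=
    fun n => exists_small_vector m (hB.1.mem_of_mem trivial)
  choose f hf1 hf using h0
  refine ⟨fun n => coef m (f n), ⟨fun n => pdf_coef _, fun n => continuous_coef _,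
    fun n => coef_one' (hf1 n), fun n s => norm_coef_le' (hf1 n) s, fun _ => by positivity,
    fun x => ?_⟩, fun U hU => ?_⟩
  · refine ⟨Set.univ, univ_mem, fun n => (1 / 2) ^ n * 2, ?_, fun n s _ => ?_⟩
    · exact (summable_geometric_of_lt_one (by norm_num) (by norm_num)).mul_right _
    · exact mul_le_mul_of_nonneg_left (norm_one_sub_coef_le' (hf1 n) s) (by positivity)
  · obtain ⟨n, -, hn⟩ := hB.1.mem_iff.mp hU
    exact ⟨n, fun s hs => hf n s (fun h => hs (hn h))⟩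

/-- The exponent of the dual semigroup. -/
theorem exists_exponent (m : Measure H) [m.IsHaarMeasure] {M : (H →ᵇ ℝ) →ₗ[ℝ] ℝ}
    (hM : IsLeftInvMean M) :
    ∃ ψ : H → ℂ, Continuous ψ ∧ ψ 1 = 0 ∧ (∀ s, 0 ≤ (ψ s).re) ∧
      (∀ t : ℝ, 0 ≤ t → PDf (fun s => Complex.exp (-(t * ψ s)))) ∧
      (∀ t : ℝ, 0 < t → PF m (fun s => Complex.exp (-(t * ψ s)))) ∧
      ∀ U ∈ 𝓝 (1 : H), ∃ δ : ℝ, 0 < δ ∧ ∀ s, s ∉ U → δ ≤ (ψ s).re := by
  obtain ⟨f, hf⟩ := exists_adm_u m hM
  obtain ⟨w, hw, hwU⟩ := exists_adm_v m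
  refine ⟨fun s => psi (fun n => coef m (f n)) (fun _ => 1) s + psi w (fun n => (1 / 2) ^ n) s,
    hf.continuous_psi.add hw.continuous_psi, ?_, fun s => ?_, fun t ht => ?_, fun t ht => ?_,
    fun U hU => ?_⟩
  · show psi (fun n => coef m (f n)) (fun _ => 1) 1 + psi w (fun n => (1 / 2) ^ n) 1 = 0
    rw [hf.psi_one, hw.psi_one, add_zero]
  · rw [Complex.add_re]
    exact add_nonneg (hf.re_nonneg s) (hw.re_nonneg s)
  · have h := (hf.pdf ht).mul (hw.pdf ht)
    have e : (fun s => Complex.exp (-(t * psi (fun n => coef m (f n)) (fun _ => 1) s))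
        * Complex.exp (-(t * psi w (fun n => (1 / 2) ^ n) s)))
        = fun s => Complex.exp (-(t * (psi (fun n => coef m (f n)) (fun _ => 1) s
          + psi w (fun n => (1 / 2) ^ n) s))) := by
      funext s
      rw [← Complex.exp_add]
      congr 1
      ring
    rw [← e]
    exact h
  · have h := pf_exp hf (hw.pdf ht.le) (hw.continuous_exp t) (hw.norm_exp_le ht.le) ht
    have e : (fun s => Complex.exp (-(t * psi (fun n => coef m (f n)) (fun _ => 1) s))
        * Complex.exp (-(t * psi w (fun n => (1 / 2) ^ n) s)))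
        = fun s => Complex.exp (-(t * (psi (fun n => coef m (f n)) (fun _ => 1) s
          + psi w (fun n => (1 / 2) ^ n) s))) := by
      funext s
      rw [← Complex.exp_add]
      congr 1
      ring
    rw [← e]
    exact h
  · obtain ⟨n, hn⟩ := hwU U hU
    refine ⟨(1 / 2) ^ n, by positivity, fun s hs => ?_⟩
    have h1 := hw.re_ge n s
    rw [hn s hs] at h1
    simp only [Complex.zero_re, sub_zero, mul_one] at h1
    rw [Complex.add_re]
    linarith [hf.re_nonneg s]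

section Phi

variable {ψ : H → ℂ}

lemma norm_phi (hre : ∀ s, 0 ≤ (ψ s).re) {t : ℝ} (ht : 0 ≤ t) (s : H) :
    ‖Complex.exp (-(t * ψ s))‖ ≤ 1 := by
  rw [Complex.norm_exp, Complex.neg_re, Complex.re_ofReal_mul]
  apply Real.exp_le_one_iff.mpr
  have := mul_nonneg ht (hre s)
  linarith

/-- Uniform convergence to zero of `ω φ_t - φ_t`. -/
theorem phi_asymp (hre : ∀ s, 0 ≤ (ψ s).re)
    (hψ : ∀ U ∈ 𝓝 (1 : H), ∃ δ : ℝ, 0 < δ ∧ ∀ s, s ∉ U → δ ≤ (ψ s).re)
    {ω : H → ℂ} (hω : Continuous ω) (hω1 : ω 1 = 1) {C : ℝ} (hC : ∀ s, ‖ω s‖ ≤ C)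
    {ε : ℝ} (hε : 0 < ε) :
    ∃ t₀ : ℝ, 0 ≤ t₀ ∧ ∀ t : ℝ, t₀ ≤ t → ∀ s : H,
      ‖ω s * Complex.exp (-(t * ψ s)) - Complex.exp (-(t * ψ s))‖ ≤ ε := by
  have hU : {s : H | ‖ω s - 1‖ < ε} ∈ 𝓝 (1 : H) := by
    have h1 : Continuous (fun s => ‖ω s - 1‖) := (hω.sub continuous_const).norm
    have h2 : ‖ω 1 - 1‖ < ε := by rw [hω1]; simpa using hε
    exact h1.continuousAt.eventually (gt_mem_nhds h2)
  obtain ⟨δ, hδ, hδU⟩ := hψ _ hU
  have hC0 : 0 ≤ C := (norm_nonneg _).trans (hC 1)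
  have h3 : Tendsto (fun t : ℝ => (C + 1) * Real.exp (-(δ * t))) atTop (𝓝 0) := by
    have h4 : Tendsto (fun t : ℝ => δ * t) atTop atTop := tendsto_id.const_mul_atTop hδ
    have h5 := (Real.tendsto_exp_neg_atTop_nhds_zero.comp h4).const_mul (C + 1)
    simpa using h5
  obtain ⟨t₁, ht₁⟩ := (eventually_atTop.mp (h3.eventually (gt_mem_nhds hε)))
  refine ⟨max t₁ 0, le_max_right _ _, fun t ht s => ?_⟩
  have ht0 : 0 ≤ t := (le_max_right _ _).trans ht
  have e1 : ω s * Complex.exp (-(t * ψ s)) - Complex.exp (-(t * ψ s))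
      = (ω s - 1) * Complex.exp (-(t * ψ s)) := by ring
  rw [e1, norm_mul]
  by_cases hs : ‖ω s - 1‖ < ε
  · calc ‖ω s - 1‖ * ‖Complex.exp (-(t * ψ s))‖ ≤ ε * 1 := by
          refine mul_le_mul hs.le (norm_phi hre ht0 s) (norm_nonneg _) hε.le
      _ = ε := mul_one _
  · have h6 := hδU s hs
    have h7 : ‖Complex.exp (-(t * ψ s))‖ ≤ Real.exp (-(δ * t)) := by
      rw [Complex.norm_exp, Complex.neg_re, Complex.re_ofReal_mul]
      apply Real.exp_le_exp.mpr
      have := mul_le_mul_of_nonneg_left h6 ht0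
      linarith
    have h8 : ‖ω s - 1‖ ≤ C + 1 := by
      refine (norm_sub_le _ _).trans ?_
      rw [norm_one]
      linarith [hC s]
    calc ‖ω s - 1‖ * ‖Complex.exp (-(t * ψ s))‖ ≤ (C + 1) * Real.exp (-(δ * t)) :=
          mul_le_mul h8 h7 (norm_nonneg _) (by linarith)
      _ ≤ ε := (ht₁ t ((le_max_left _ _).trans ht)).le

/-- Weak-star continuity. -/
theorem phi_wstar (hψc : Continuous ψ) (hre : ∀ s, 0 ≤ (ψ s).re) {f : H → ℂ}
    (hf : Integrable f m) :
    Tendsto (fun t : ℝ≥0 => ∫ x, f x * Complex.exp (-(((t : ℝ) : ℂ) * ψ x)) ∂m) (𝓝 0)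
      (𝓝 (∫ x, f x ∂m)) := by
  refine tendsto_integral_filter_of_dominated_convergence (fun x => ‖f x‖) ?_ ?_ hf.norm ?_
  · refine Eventually.of_forall (fun t => hf.aestronglyMeasurable.mul ?_)
    exact (Complex.continuous_exp.comp
      ((continuous_const.mul hψc).neg)).aestronglyMeasurable
  · refine Eventually.of_forall (fun t => Eventually.of_forall (fun x => ?_))
    rw [norm_mul]
    exact mul_le_of_le_one_right (norm_nonneg _) (norm_phi hre t.coe_nonneg x)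
  · refine Eventually.of_forall (fun x => ?_)
    have h1 : Continuous (fun t : ℝ≥0 => f x * Complex.exp (-(((t : ℝ) : ℂ) * ψ x))) := by
      fun_prop
    have h2 := h1.tendsto 0
    simpa using h2

/-- Uniform convergence on compact sets. -/
theorem phi_compact (hψc : Continuous ψ) {K : Set H}
    (hK : IsCompact K) {ε : ℝ} (hε : 0 < ε) :
    ∃ t₀ : ℝ, 0 < t₀ ∧ ∀ t : ℝ, 0 ≤ t → t ≤ t₀ → ∀ s ∈ K,
      ‖Complex.exp (-(t * ψ s)) - 1‖ ≤ ε := by
  obtain ⟨C, hC⟩ := hK.exists_bound_of_continuousOn hψc.continuousOn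
  have hm : 0 < min 1 (ε / 2) := lt_min one_pos (by positivity)
  refine ⟨min 1 (ε / 2) / (|C| + 1), by positivity, fun t ht0 ht s hs => ?_⟩
  have h2 : ‖-(t * ψ s)‖ ≤ min 1 (ε / 2) := by
    rw [norm_neg, norm_mul, Complex.norm_real, Real.norm_eq_abs, abs_of_nonneg ht0]
    calc t * ‖ψ s‖ ≤ min 1 (ε / 2) / (|C| + 1) * (|C| + 1) := by
          refine mul_le_mul ht ((hC s hs).trans ?_) (norm_nonneg _) (by positivity)
          linarith [le_abs_self C]
      _ = min 1 (ε / 2) := by field_simp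
  have h1 := Complex.norm_exp_sub_one_le (x := -(t * ψ s)) (h2.trans (min_le_left _ _))
  have h3 := h2.trans (min_le_right _ _)
  linarith

end Phi

end Pool.Agent.Helper33.CS
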