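import Mathlib

/-!
Weak-star continuity at zero of a family of probability measures from a linear bound for the
masses of the complements of the neighbourhoods of the identity.
-/

open MeasureTheory Filter Topology
open scoped ENNReal NNReal ZeroAtInfty

namespace Pool.Agent.Helper33.CS

lemma wstar {H : Type*} [Group H] [TopologicalSpace H] [IsTopologicalGroup H]
    [MeasurableSpace H] [BorelSpace H] {μ : ℝ≥0 → Measure H}
    (h1 : ∀ t, IsProbabilityMeasure (μ t))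
    (h4 : ∀ U ∈ 𝓝 (1 : H), ∃ C : ℝ, ∀ t, (μ t).real Uᶜ ≤ C * t) (f : C₀(H, ℂ)) :
    Tendsto (fun t : ℝ≥0 => ∫ x, f x ∂(μ t)) (𝓝[>] 0) (𝓝 (f 1)) := by
  rw [Metric.tendsto_nhds]
  intro ε hε
  have hfb : ∀ x, ‖f x - f 1‖ ≤ 2 * ‖f.toBCF‖ := fun x => by
    have ha := f.toBCF.norm_coe_le_norm x
    have hb := f.toBCF.norm_coe_le_norm 1
    have hc := norm_sub_le (f x) (f 1)
    have ha' : ‖f x‖ ≤ ‖f.toBCF‖ := ha
    have hb' : ‖f 1‖ ≤ ‖f.toBCF‖ := hb
    linarith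
  have hU : {x : H | ‖f x - f 1‖ < ε / 2} ∈ 𝓝 (1 : H) := by
    have := (f.continuous.tendsto 1)
    rw [Metric.tendsto_nhds] at this
    have h6 := this (ε / 2) (by positivity)
    simp only [dist_eq_norm] at h6
    exact h6
  obtain ⟨U, hUs, hUo, hU1⟩ := mem_nhds_iff.mp hU
  obtain ⟨C, hC⟩ := h4 U (hUo.mem_nhds hU1)
  have hCt : Tendsto (fun t : ℝ≥0 => 2 * ‖f.toBCF‖ * (C * (t : ℝ))) (𝓝[>] 0) (𝓝 0) := by
    have : Tendsto (fun t : ℝ≥0 => 2 * ‖f.toBCF‖ * (C * (t : ℝ))) (𝓝 0)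
        (𝓝 (2 * ‖f.toBCF‖ * (C * ((0 : ℝ≥0) : ℝ)))) := by
      apply Continuous.tendsto
      fun_prop
    simpa using this.mono_left nhdsWithin_le_nhds
  rw [Metric.tendsto_nhds] at hCt
  filter_upwards [hCt (ε / 2) (by positivity)] with t ht
  have hp := h1 t
  have hfi : Integrable (fun x => f x) (μ t) :=
    Integrable.of_bound f.continuous.measurable.aestronglyMeasurable ‖f.toBCF‖
      (Eventually.of_forall (fun x => f.toBCF.norm_coe_le_norm x))
  have hint : Integrable (fun x => f x - f 1) (μ t) := hfi.sub (integrable_const _)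
  have e1 : ∫ x, f x ∂(μ t) - f 1 = ∫ x, (f x - f 1) ∂(μ t) := by
    rw [integral_sub hfi (integrable_const _)]
    simp
  rw [dist_eq_norm, e1]
  have hind : Integrable (fun x => ε / 2 + 2 * ‖f.toBCF‖ * (Uᶜ.indicator (fun _ => (1 : ℝ)) x))
      (μ t) := by
    refine (integrable_const _).add (Integrable.const_mul ?_ _)
    exact (integrable_const _).indicator hUo.measurableSet.compl
  have hle : ∫ x, ‖f x - f 1‖ ∂(μ t)
      ≤ ∫ x, (ε / 2 + 2 * ‖f.toBCF‖ * (Uᶜ.indicator (fun _ => (1 : ℝ)) x)) ∂(μ t) := by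
    refine integral_mono hint.norm hind (fun x => ?_)
    by_cases hx : x ∈ U
    · have h7 : ‖f x - f 1‖ < ε / 2 := hUs hx
      have h8 : Uᶜ.indicator (fun _ => (1 : ℝ)) x = 0 := Set.indicator_of_notMem (by simpa) _
      show ‖f x - f 1‖ ≤ ε / 2 + 2 * ‖f.toBCF‖ * (Uᶜ.indicator (fun _ => (1 : ℝ)) x)
      rw [h8]
      linarith
    · have h8 : Uᶜ.indicator (fun _ => (1 : ℝ)) x = 1 := Set.indicator_of_mem (by simpa) _
      show ‖f x - f 1‖ ≤ ε / 2 + 2 * ‖f.toBCF‖ * (Uᶜ.indicator (fun _ => (1 : ℝ)) x)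
      rw [h8]
      linarith [hfb x]
  have heq : ∫ x, (ε / 2 + 2 * ‖f.toBCF‖ * (Uᶜ.indicator (fun _ => (1 : ℝ)) x)) ∂(μ t)
      = ε / 2 + 2 * ‖f.toBCF‖ * (μ t).real Uᶜ := by
    rw [integral_add (integrable_const _)
      (((integrable_const _).indicator hUo.measurableSet.compl).const_mul _),
      integral_const_mul, integral_indicator hUo.measurableSet.compl]
    simp
  have hlast : 2 * ‖f.toBCF‖ * (μ t).real Uᶜ < ε / 2 := by
    have h9 : 2 * ‖f.toBCF‖ * (μ t).real Uᶜ ≤ 2 * ‖f.toBCF‖ * (C * t) :=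
      mul_le_mul_of_nonneg_left (hC t) (by positivity)
    rw [Real.dist_eq, sub_zero] at ht
    exact h9.trans_lt ((le_abs_self _).trans_lt ht)
  calc ‖∫ x, (f x - f 1) ∂(μ t)‖ ≤ ∫ x, ‖f x - f 1‖ ∂(μ t) := norm_integral_le_integral_norm _
    _ ≤ _ := hle
    _ = _ := heq
    _ < ε := by linarith

end Pool.Agent.Helper33.CS
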